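import Mathlib

set_option autoImplicit false

open Set Filter Topology

namespace Pool.Agent.H913Z.NIP

/-- One map fixed point (Markov Kakutani, first step). -/
theorem fix_one {ι : Type*} (C : Set (ι → ℝ)) (hC : IsCompact C) (hne : C.Nonempty)
    (hconv : Convex ℝ C) (T : (ι → ℝ) →ₗ[ℝ] (ι → ℝ)) (hT : Continuous T)
    (hTC : MapsTo T C C) : ∃ y ∈ C, T y = y := by
  obtain ⟨x, hx⟩ := hne
  have hit : ∀ n : ℕ, (T ^ n) x ∈ C := by
    intro n
    induction n with
    | zero => simpa using hx
    | succ n ih => rw [pow_succ', Module.End.mul_apply]; exact hTC ih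
  let u : ℕ → (ι → ℝ) := fun N => ∑ n ∈ Finset.range (N + 1), ((N : ℝ) + 1)⁻¹ • (T ^ n) x
  have hu : ∀ N, u N ∈ C := by
    intro N
    refine hconv.sum_mem (fun _ _ => by positivity) ?_ (fun n _ => hit n)
    rw [Finset.sum_const, Finset.card_range, nsmul_eq_mul]
    push_cast
    field_simp
  have hdiff : ∀ N, T (u N) - u N = ((N : ℝ) + 1)⁻¹ • ((T ^ (N + 1)) x - x) := by
    intro N
    simp only [u, map_sum, map_smul, ← Finset.smul_sum]
    rw [← smul_sub, ← Finset.sum_sub_distrib]
    congr 1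
    have := Finset.sum_range_sub (fun n => (T ^ n) x) (N + 1)
    simp only [pow_zero, Module.End.one_apply] at this
    rw [← this]
    refine Finset.sum_congr rfl fun n _ => ?_
    rw [pow_succ', Module.End.mul_apply]
  let U : Ultrafilter ℕ := Ultrafilter.of atTop
  have hU : (U : Filter ℕ) ≤ atTop := Ultrafilter.of_le _
  obtain ⟨y, hyC, hy⟩ := hC.ultrafilter_le_nhds' (U.map u) (by
    rw [Ultrafilter.mem_map]; exact Filter.univ_mem' hu)
  have hy' : Tendsto u U (𝓝 y) := hy
  refine ⟨y, hyC, ?_⟩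
  have h1 : Tendsto (fun N => T (u N) - u N) U (𝓝 (T y - y)) :=
    ((hT.tendsto y).comp hy').sub hy'
  have h2 : Tendsto (fun N => T (u N) - u N) U (𝓝 0) := by
    refine Tendsto.mono_left ?_ hU
    rw [tendsto_pi_nhds]
    intro i
    obtain ⟨B, hB⟩ := (hC.image (continuous_apply i)).isBounded.exists_norm_le
    have hB' : ∀ z ∈ C, |z i| ≤ B := fun z hz => hB _ ⟨z, hz, rfl⟩
    simp only [hdiff]
    simp only [Pi.smul_apply, Pi.sub_apply, smul_eq_mul, Pi.zero_apply]
    have h3 : Tendsto (fun N : ℕ => ((N : ℝ) + 1)⁻¹ * (2 * B)) atTop (𝓝 0) := by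
      have := (tendsto_one_div_add_atTop_nhds_zero_nat (𝕜 := ℝ)).mul_const (2 * B)
      simpa using this
    refine squeeze_zero_norm (fun N => ?_) h3
    rw [norm_mul, Real.norm_eq_abs, Real.norm_eq_abs, abs_of_nonneg (by positivity)]
    gcongr
    have a1 := hB' _ (hit (N + 1))
    have a2 := hB' _ hx
    calc _ ≤ |((T ^ (N + 1)) x) i| + |x i| := abs_sub _ _
      _ ≤ 2 * B := by linarith
  exact sub_eq_zero.mp (tendsto_nhds_unique h1 h2)

/-- Markov Kakutani fixed point theorem in a product of lines. -/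
theorem fix_family {ι J : Type*} (C : Set (ι → ℝ)) (hC : IsCompact C) (hne : C.Nonempty)
    (hconv : Convex ℝ C) (T : J → (ι → ℝ) →ₗ[ℝ] (ι → ℝ)) (hT : ∀ j, Continuous (T j))
    (hTC : ∀ j, MapsTo (T j) C C) (hcomm : ∀ i j y, T i (T j y) = T j (T i y)) :
    ∃ y ∈ C, ∀ j, T j y = y := by
  classical
  have hcl : ∀ j, IsClosed {y | T j y = y} := fun j => isClosed_eq (hT j) continuous_id
  have key : ∀ s : Finset J, (C ∩ ⋂ j ∈ s, {y | T j y = y}).Nonempty := by
    intro s
    induction s using Finset.induction_on with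
    | empty => simpa using hne
    | insert j s _ ih =>
      have hc : IsCompact (C ∩ ⋂ j ∈ s, {y | T j y = y}) :=
        hC.inter_right (isClosed_biInter fun j _ => hcl j)
      have hv : Convex ℝ (C ∩ ⋂ j ∈ s, {y | T j y = y}) := by
        refine hconv.inter (convex_iInter₂ fun i _ => ?_)
        intro a ha b hb p q _ _ _
        simp only [mem_ofPred_eq] at ha hb ⊢
        rw [map_add, map_smul, map_smul, ha, hb]
      obtain ⟨y, hy, hy2⟩ := fix_one _ hc ih hv (T j) (hT j) (by
        rintro y ⟨h1, h2⟩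
        refine ⟨hTC j h1, ?_⟩
        simp only [mem_iInter, mem_ofPred_eq] at h2 ⊢
        intro i hi
        rw [hcomm, h2 i hi])
      refine ⟨y, hy.1, ?_⟩
      have h2 := hy.2
      simp only [mem_iInter, mem_ofPred_eq, Finset.mem_insert] at h2 ⊢
      rintro i (rfl | hi)
      · exact hy2
      · exact h2 i hi
  obtain ⟨y, hy, hy2⟩ := hC.inter_iInter_nonempty (fun j => {y | T j y = y}) hcl key
  exact ⟨y, hy, fun j => mem_iInter.mp hy2 j⟩

/-- Finitely additive probability measures on all subsets. -/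
structure IsMean {X : Type*} (m : Set X → ℝ) : Prop where
  nonneg : ∀ E, 0 ≤ m E
  univ : m Set.univ = 1
  add : ∀ E F, Disjoint E F → m (E ∪ F) = m E + m F

namespace IsMean
variable {X : Type*} {m : Set X → ℝ}

theorem empty (h : IsMean m) : m ∅ = 0 := by
  have := h.add ∅ ∅ (by simp)
  simp at this; linarith

theorem split (h : IsMean m) (A E : Set X) : m A = m (A ∩ E) + m (A \ E) := by
  rw [← h.add _ _ disjoint_sdiff_inter.symm, inter_union_sdiff]

theorem mono (h : IsMean m) {A B : Set X} (hAB : A ⊆ B) : m A ≤ m B := by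
  rw [h.split B A, inter_eq_right.mpr hAB]
  linarith [h.nonneg (B \ A)]

theorem le_one (h : IsMean m) (A : Set X) : m A ≤ 1 := h.univ ▸ h.mono (subset_univ A)

theorem union_le (h : IsMean m) (A B : Set X) : m (A ∪ B) ≤ m A + m B := by
  rw [← union_sdiff_self, h.add _ _ disjoint_sdiff_right]
  linarith [h.mono (sdiff_subset : B \ A ⊆ B)]

theorem tri (h : IsMean m) (A B C : Set X) :
    m (symmDiff A C) ≤ m (symmDiff A B) + m (symmDiff B C) :=
  (h.mono (symmDiff_triangle A B C)).trans (h.union_le _ _)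

open Classical in
theorem avg (h : IsMean m) {J : Type*} (E : J → Set X) (s : Finset J) :
    ∀ (A : Set X) (t : ℝ), (∀ x ∈ A, ((s.filter fun j => x ∈ E j).card : ℝ) ≤ t) →
      ∑ j ∈ s, m (A ∩ E j) ≤ t * m A := by
  induction s using Finset.induction_on with
  | empty =>
    intro A t ht
    rcases A.eq_empty_or_nonempty with rfl | ⟨x, hx⟩
    · simp [h.empty]
    · have := ht x hx
      simp only [Finset.filter_empty, Finset.card_empty, Nat.cast_zero] at this
      simpa using mul_nonneg this (h.nonneg A)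
  | insert j s hj ih =>
    intro A t ht
    have h1 := ih (A ∩ E j) (t - 1) (by
      intro x hx
      have := ht x hx.1
      rw [Finset.filter_insert, if_pos hx.2, Finset.card_insert_of_notMem (by simp [hj])] at this
      push_cast at this
      linarith)
    have h2 := ih (A \ E j) t (by
      intro x hx
      have := ht x hx.1
      rwa [Finset.filter_insert, if_neg hx.2] at this)
    rw [Finset.sum_insert hj]
    have h3 : ∑ i ∈ s, m (A ∩ E i) = ∑ i ∈ s, m (A ∩ E j ∩ E i) + ∑ i ∈ s, m (A \ E j ∩ E i) := by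
      rw [← Finset.sum_add_distrib]
      refine Finset.sum_congr rfl fun i _ => ?_
      rw [h.split (A ∩ E i) (E j)]
      congr 2
      · ext x; simp only [mem_inter_iff]; tauto
      · ext x; simp only [mem_inter_iff, Set.mem_sdiff]; tauto
    rw [h3, h.split A (E j)]
    linarith

end IsMean

theorem isCompact_means (X : Type*) : IsCompact {m : Set X → ℝ | IsMean m} := by
  have h1 : IsCompact (Set.pi Set.univ fun _ : Set X => Icc (0 : ℝ) 1) :=
    isCompact_univ_pi fun _ => isCompact_Icc
  refine h1.of_isClosed_subset ?_ (fun m hm E _ => ⟨hm.nonneg E, hm.le_one E⟩)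
  have : {m : Set X → ℝ | IsMean m} = (⋂ E, {m | 0 ≤ m E}) ∩ {m | m Set.univ = 1} ∩
      ⋂ E, ⋂ F, ⋂ (_ : Disjoint E F), {m | m (E ∪ F) = m E + m F} := by
    ext m
    simp only [mem_ofPred_eq, mem_inter_iff, mem_iInter]
    exact ⟨fun h => ⟨⟨h.1, h.2⟩, h.3⟩, fun h => ⟨h.1.1, h.1.2, h.2⟩⟩
  rw [this]
  refine ((isClosed_iInter fun E => ?_).inter ?_).inter
    (isClosed_iInter fun E => isClosed_iInter fun F => isClosed_iInter fun _ => ?_)
  · exact isClosed_le continuous_const (continuous_apply E)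
  · exact isClosed_eq (continuous_apply _) continuous_const
  · exact isClosed_eq (continuous_apply _) ((continuous_apply E).add (continuous_apply F))

theorem convex_means (X : Type*) : Convex ℝ {m : Set X → ℝ | IsMean m} := by
  intro a ha b hb p q hp hq hpq
  refine ⟨fun E => ?_, ?_, fun E F hEF => ?_⟩
  · simp only [Pi.add_apply, Pi.smul_apply, smul_eq_mul]
    exact add_nonneg (mul_nonneg hp (ha.nonneg E)) (mul_nonneg hq (hb.nonneg E))
  · simp only [Pi.add_apply, Pi.smul_apply, smul_eq_mul, ha.univ, hb.univ]; linarith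
  · simp only [Pi.add_apply, Pi.smul_apply, smul_eq_mul, ha.add E F hEF, hb.add E F hEF]; ring

theorem nonempty_means (X : Type*) [Nonempty X] : {m : Set X → ℝ | IsMean m}.Nonempty := by
  classical
  obtain ⟨x⟩ := ‹Nonempty X›
  refine ⟨fun E => if x ∈ E then 1 else 0, fun E => ?_, by simp, fun E F hEF => ?_⟩
  · split_ifs <;> norm_num
  · by_cases h1 : x ∈ E <;> by_cases h2 : x ∈ F <;> simp [h1, h2]
    exact Set.disjoint_left.mp hEF h1 h2

/-- Push forward of set functions. -/
def push {X : Type*} (g : X → X) : (Set X → ℝ) →ₗ[ℝ] (Set X → ℝ) where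
  toFun m E := m (g ⁻¹' E)
  map_add' _ _ := rfl
  map_smul' _ _ := rfl

theorem push_cont {X : Type*} (g : X → X) : Continuous (push g) :=
  continuous_pi fun _ => continuous_apply _

theorem push_maps {X : Type*} (g : X → X) :
    MapsTo (push g) {m : Set X → ℝ | IsMean m} {m : Set X → ℝ | IsMean m} := by
  intro m hm
  refine ⟨fun E => hm.nonneg _, hm.univ, fun E F hEF => ?_⟩
  exact hm.add _ _ (hEF.preimage g)

/-- An invariant mean for the right action of the affine group of a field on itself. -/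
theorem exists_affine_mean (K : Type*) [Field K] : ∃ m : Set (K × Kˣ) → ℝ, IsMean m ∧
    (∀ (h : K) E, m ((fun γ : K × Kˣ => (γ.1 + γ.2 * h, γ.2)) ⁻¹' E) = m E) ∧
    (∀ (u : Kˣ) E, m ((fun γ : K × Kˣ => (γ.1, γ.2 * u)) ⁻¹' E) = m E) := by
  let τ : K → K × Kˣ → K × Kˣ := fun h γ => (γ.1 + γ.2 * h, γ.2)
  let σ : Kˣ → K × Kˣ → K × Kˣ := fun u γ => (γ.1, γ.2 * u)
  let C : Set (Set (K × Kˣ) → ℝ) := {m | IsMean m} ∩ ⋂ h, {m | push (τ h) m = m}
  have hne : C.Nonempty := by
    obtain ⟨y, hy, hy2⟩ := fix_family _ (isCompact_means (K × Kˣ)) (nonempty_means _)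
      (convex_means _) (fun h => push (τ h)) (fun h => push_cont _) (fun h => push_maps _) (by
        intro i j y
        funext E
        show y (τ j ⁻¹' (τ i ⁻¹' E)) = y (τ i ⁻¹' (τ j ⁻¹' E))
        congr 1
        ext γ
        simp only [mem_preimage, τ]
        rw [add_right_comm])
    exact ⟨y, hy, mem_iInter.mpr hy2⟩
  have hC : IsCompact C := (isCompact_means _).inter_right
    (isClosed_iInter fun h => isClosed_eq (push_cont _) continuous_id)
  have hv : Convex ℝ C := by
    refine (convex_means _).inter (convex_iInter fun i => ?_)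
    intro a ha b hb p q _ _ _
    simp only [mem_ofPred_eq] at ha hb ⊢
    rw [map_add, map_smul, map_smul, ha, hb]
  obtain ⟨y, hy, hy2⟩ := fix_family C hC hne hv (fun u => push (σ u)) (fun u => push_cont _) (by
      rintro u m ⟨h1, h2⟩
      refine ⟨push_maps _ h1, mem_iInter.mpr fun h => ?_⟩
      funext E
      have h3 := congrFun (mem_iInter.mp h2 (u * h)) (σ u ⁻¹' E)
      show m (σ u ⁻¹' (τ h ⁻¹' E)) = m (σ u ⁻¹' E)
      rw [← h3]
      show _ = m (τ (u * h) ⁻¹' (σ u ⁻¹' E))
      congr 1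
      ext γ
      simp only [mem_preimage, τ, σ, Units.val_mul, mul_assoc]) (by
      intro i j y
      funext E
      show y (σ j ⁻¹' (σ i ⁻¹' E)) = y (σ i ⁻¹' (σ j ⁻¹' E))
      congr 1
      ext γ
      simp only [mem_preimage, σ]
      rw [mul_right_comm])
  exact ⟨y, hy.1, fun h E => congrFun (mem_iInter.mp hy.2 h) E, fun u E => congrFun (hy2 u) E⟩

end Pool.Agent.H913Z.NIP
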