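import Mathlib
import Pool.Agent.H913Z.Mean

set_option autoImplicit false

open Set Filter Topology

namespace Pool.Agent.H913Z.NIP

/-- No set of `k` points is shattered by the family. -/
def VCle {X I : Type*} (E : I → Set X) (k : ℕ) : Prop :=
  ∀ A : Finset X, A.card = k → ∃ B ⊆ A, ∀ i, ¬ ∀ a ∈ A, (a ∈ B ↔ a ∈ E i)

open Classical in
theorem traces_le {X I : Type*} (E : I → Set X) (k : ℕ) (hE : VCle E k) (A : Finset X)
    (s : Finset I) : (s.image fun i => A.filter (· ∈ E i)).card ≤ k * (A.card + 1) ^ k := by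
  refine (Finset.card_le_card_shatterer _).trans ?_
  have h1 : (s.image fun i => A.filter (· ∈ E i)).shatterer ⊆
      (Finset.range k).biUnion fun j => A.powersetCard j := by
    intro t ht
    rw [Finset.mem_shatterer] at ht
    obtain ⟨u, hu, htu⟩ := ht.exists_superset
    obtain ⟨i, -, rfl⟩ := Finset.mem_image.mp hu
    have htA : t ⊆ A := htu.trans (Finset.filter_subset _ _)
    simp only [Finset.mem_biUnion, Finset.mem_range, Finset.mem_powersetCard]
    refine ⟨t.card, ?_, htA, rfl⟩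
    by_contra hk
    obtain ⟨t', ht', hc⟩ := Finset.exists_subset_card_eq (not_lt.mp hk)
    obtain ⟨B, hB, hB2⟩ := hE t' hc
    obtain ⟨w, hw, hw2⟩ := (ht.mono_right ht') hB
    obtain ⟨j, -, rfl⟩ := Finset.mem_image.mp hw
    refine hB2 j fun a ha => ?_
    rw [← hw2]
    simp [ha, htA (ht' ha)]
  refine (Finset.card_le_card h1).trans (Finset.card_biUnion_le.trans ?_)
  calc ∑ j ∈ Finset.range k, (A.powersetCard j).card
      ≤ ∑ _j ∈ Finset.range k, (A.card + 1) ^ k := by
        refine Finset.sum_le_sum fun j hj => ?_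
        rw [Finset.card_powersetCard]
        calc A.card.choose j ≤ A.card ^ j := Nat.choose_le_pow _ _
          _ ≤ (A.card + 1) ^ j := by gcongr; omega
          _ ≤ (A.card + 1) ^ k := Nat.pow_le_pow_right (by omega) (Finset.mem_range.mp hj).le
    _ = _ := by simp

open Classical in
theorem greedy {X J : Type*} {m : Set X → ℝ} (hm : IsMean m) (F : J → Set X) (s : Finset J)
    (δ : ℝ) (hδ1 : δ ≤ 1) (hF : ∀ j ∈ s, δ ≤ m (F j)) (t : ℕ) :
    ∃ A : Finset X, A.card ≤ t ∧
      ((s.filter fun j => ∀ x ∈ A, x ∉ F j).card : ℝ) ≤ (1 - δ) ^ t * s.card := by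
  induction t with
  | zero => exact ⟨∅, by simp, by simp⟩
  | succ t ih =>
    obtain ⟨A, hA, hA2⟩ := ih
    set s' := s.filter fun j => ∀ x ∈ A, x ∉ F j with hs'
    have h1 : ∃ x, δ * s'.card ≤ ((s'.filter fun j => x ∈ F j).card : ℝ) := by
      by_contra hcon
      push Not at hcon
      have hX : Nonempty X := by
        by_contra hX
        rw [not_nonempty_iff] at hX
        have := hm.univ
        rw [Set.eq_empty_of_isEmpty Set.univ, hm.empty] at this
        norm_num at this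
      obtain ⟨x0, hx0⟩ : ∃ x0, ∀ x, (s'.filter fun j => x ∈ F j).card ≤
          (s'.filter fun j => x0 ∈ F j).card := by
        obtain ⟨n, ⟨x0, rfl⟩, hn⟩ := Set.exists_max_image
          (Set.range fun x => (s'.filter fun j => x ∈ F j).card) id
          ((Set.finite_Iic s'.card).subset (by
            rintro _ ⟨x, rfl⟩; exact Finset.card_filter_le _ _)) (Set.range_nonempty _)
        exact ⟨x0, fun x => hn _ ⟨x, rfl⟩⟩
      have h2 := hm.avg F s' Set.univ _ (fun x _ => Nat.cast_le.mpr (hx0 x))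
      rw [hm.univ, mul_one] at h2
      have h3 : δ * s'.card ≤ ∑ j ∈ s', m (Set.univ ∩ F j) := by
        calc δ * s'.card = ∑ _j ∈ s', δ := by simp [mul_comm]
          _ ≤ _ := Finset.sum_le_sum fun j hj => by
            rw [univ_inter]; exact hF j (Finset.mem_filter.mp hj).1
      linarith [hcon x0]
    obtain ⟨x, hx⟩ := h1
    refine ⟨insert x A, (Finset.card_insert_le _ _).trans (by omega), ?_⟩
    have h4 : (s.filter fun j => ∀ y ∈ insert x A, y ∉ F j) = s'.filter fun j => ¬ x ∈ F j := by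
      ext j
      simp only [hs', Finset.mem_filter, Finset.mem_insert, forall_eq_or_imp]
      tauto
    have h5 := Finset.card_filter_add_card_filter_not (s := s') (fun j => x ∈ F j)
    have h6 : ((s'.filter fun j => x ∈ F j).card : ℝ) + (s'.filter fun j => ¬ x ∈ F j).card
        = s'.card := by exact_mod_cast h5
    rw [h4, pow_succ]
    have h7 : (1 - δ) * (s'.card : ℝ) ≤ (1 - δ) * ((1 - δ) ^ t * s.card) :=
      mul_le_mul_of_nonneg_left hA2 (by linarith)
    linarith

theorem exists_big (k : ℕ) (r : ℝ) (hr0 : 0 < r) (hr1 : r < 1) :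
    ∃ t : ℕ, r ^ t * ((k * (t + 1) ^ k + 1 : ℕ) : ℝ) ^ 2 < 1 := by
  have h1 := tendsto_pow_const_mul_const_pow_of_abs_lt_one (2 * k) (r := r)
    (by rwa [abs_of_pos hr0])
  have h2 := (h1.comp (tendsto_add_atTop_nat 1)).const_mul (((k : ℝ) + 1) ^ 2 / r)
  rw [mul_zero] at h2
  obtain ⟨t, ht⟩ := (h2.eventually (gt_mem_nhds one_pos)).exists
  refine ⟨t, lt_of_le_of_lt ?_ ht⟩
  simp only [Function.comp]
  push_cast
  have h3 : (1 : ℝ) ≤ ((t : ℝ) + 1) ^ k := one_le_pow₀ (by linarith [Nat.cast_nonneg (α := ℝ) t])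
  have h4 : (k : ℝ) * ((t : ℝ) + 1) ^ k + 1 ≤ ((k : ℝ) + 1) * ((t : ℝ) + 1) ^ k := by linarith
  calc r ^ t * ((k : ℝ) * ((t : ℝ) + 1) ^ k + 1) ^ 2
      ≤ r ^ t * (((k : ℝ) + 1) * ((t : ℝ) + 1) ^ k) ^ 2 := by gcongr
    _ = _ := by field_simp; ring

/-- A family of finite VC dimension has no infinite separated subfamily. -/
theorem no_sep {X I : Type*} {m : Set X → ℝ} (hm : IsMean m) (E : I → Set X) (k : ℕ)
    (hE : VCle E k) (δ : ℝ) (hδ : 0 < δ) (f : ℕ → I) :
    ¬ ∀ a b, a < b → δ ≤ m (symmDiff (E (f a)) (E (f b))) := by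
  classical
  intro h
  have hδ1 : δ ≤ 1 := (h 0 1 one_pos).trans (hm.le_one _)
  obtain ⟨t, ht⟩ := exists_big k (1 - δ / 2) (by linarith) (by linarith)
  set N := k * (t + 1) ^ k + 1 with hN
  obtain ⟨A, hA, hA2⟩ := greedy hm (fun p : ℕ × ℕ => symmDiff (E (f p.1)) (E (f p.2)))
    (Finset.range N).offDiag (δ / 2) (by linarith) (by
      intro p hp
      rcases lt_or_gt_of_ne (Finset.mem_offDiag.mp hp).2.2 with h1 | h1
      · linarith [h _ _ h1]
      · rw [symmDiff_comm]; linarith [h _ _ h1]) t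
  have h1 : (((Finset.range N).offDiag).card : ℝ) ≤ (N : ℝ) ^ 2 := by
    rw [Finset.offDiag_card, Finset.card_range]
    have : N * N - N ≤ N ^ 2 := by rw [sq]; omega
    exact_mod_cast this
  have h2 : (1 - δ / 2) ^ t * (((Finset.range N).offDiag).card : ℝ) < 1 :=
    lt_of_le_of_lt (mul_le_mul_of_nonneg_left h1 (pow_nonneg (by linarith) _)) ht
  have h3 := lt_of_le_of_lt hA2 h2
  rw [Nat.cast_lt_one, Finset.card_eq_zero, Finset.filter_eq_empty_iff] at h3
  have h4 := traces_le (fun n => E (f n)) k (fun A hA => by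
    obtain ⟨B, hB, hB2⟩ := hE A hA
    exact ⟨B, hB, fun i => hB2 (f i)⟩) A (Finset.range N)
  rw [Finset.card_image_of_injOn, Finset.card_range] at h4
  · have : k * (A.card + 1) ^ k ≤ k * (t + 1) ^ k := by gcongr
    omega
  · intro a ha b hb hab
    by_contra hne
    refine h3 (x := (a, b)) (Finset.mem_offDiag.mpr ⟨ha, hb, hne⟩) fun x hx => ?_
    have := Finset.ext_iff.mp hab x
    simp only [Finset.mem_filter, hx, true_and] at this
    simp only [mem_symmDiff]
    tauto

/-- Total boundedness as a finite colouring. -/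
theorem exists_colour {X I : Type*} {m : Set X → ℝ} (hm : IsMean m) (E : I → Set X) (k : ℕ)
    (hE : VCle E k) (δ : ℝ) (hδ : 0 < δ) :
    ∃ (s : Finset I) (c : I → s), ∀ p q, c p = c q → m (symmDiff (E p) (E q)) ≤ 2 * δ := by
  have h1 : ∃ s : Finset I, ∀ p, ∃ q ∈ s, m (symmDiff (E q) (E p)) < δ := by
    by_contra hcon
    push Not at hcon
    obtain ⟨f, -, hf⟩ := exists_seq_of_forall_finset_exists (fun _ : I => True)
      (fun q p => δ ≤ m (symmDiff (E q) (E p))) (fun s _ => by
        obtain ⟨p, hp⟩ := hcon s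
        exact ⟨p, trivial, hp⟩)
    exact no_sep hm E k hE δ hδ f hf
  obtain ⟨s, hs⟩ := h1
  choose c hc hc2 using hs
  refine ⟨s, fun p => ⟨c p, hc p⟩, fun p q hpq => ?_⟩
  have h2 : c p = c q := congrArg Subtype.val hpq
  have h3 := hm.tri (E p) (E (c p)) (E q)
  have h4 := hc2 p
  have h5 := hc2 q
  rw [symmDiff_comm] at h4
  rw [← h2] at h5
  linarith

end Pool.Agent.H913Z.NIP
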