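import Mathlib
import Pool.Agent.H913Z.Pack

set_option autoImplicit false

open Set Filter Topology

namespace Pool.Agent.H913Z.NIP

/-- The set of affine maps `γ` with `γ x` before `γ y`. -/
def EE {K : Type*} [Field K] (lt : K → K → Prop) (p : K × K) : Set (K × Kˣ) :=
  {γ | lt (γ.1 + γ.2 * p.1) (γ.1 + γ.2 * p.2)}

theorem null_shift {K : Type*} [Field K] [Infinite K] (lt : K → K → Prop) (k : ℕ)
    (hE : VCle (EE lt) k) {m : Set (K × Kˣ) → ℝ} (hm : IsMean m)
    (hτ : ∀ (h : K) E, m ((fun γ : K × Kˣ => (γ.1 + γ.2 * h, γ.2)) ⁻¹' E) = m E)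
    (hσ : ∀ (u : Kˣ) E, m ((fun γ : K × Kˣ => (γ.1, γ.2 * u)) ⁻¹' E) = m E) (x y g : K)
    (hxy : x ≠ y) : m (symmDiff (EE lt (x, y)) (EE lt (x + g, y + g))) = 0 := by
  classical
  let d : K × K → K × K → ℝ := fun p q => m (symmDiff (EE lt p) (EE lt q))
  have dτ : ∀ h a b a' b', d (a + h, b + h) (a' + h, b' + h) = d (a, b) (a', b') := by
    intro h a b a' b'
    simp only [d]
    rw [← hτ h (symmDiff (EE lt (a, b)) (EE lt (a', b')))]
    congr 1
    ext γ
    simp only [mem_symmDiff, mem_preimage, EE, mem_ofPred_eq, mul_add, add_assoc,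
      add_comm (γ.2 * h : K)]
  have dσ : ∀ (u : K), u ≠ 0 → ∀ a b a' b',
      d (u * a, u * b) (u * a', u * b') = d (a, b) (a', b') := by
    intro u hu a b a' b'
    simp only [d]
    rw [← hσ (Units.mk0 u hu) (symmDiff (EE lt (a, b)) (EE lt (a', b')))]
    congr 1
    ext γ
    simp only [mem_symmDiff, mem_preimage, EE, mem_ofPred_eq, Units.val_mul, Units.val_mk0,
      mul_assoc]
  have dtri : ∀ p q r, d p r ≤ d p q + d q r := fun p q r => hm.tri _ _ _
  have dsym : ∀ p q, d p q = d q p := fun p q => by simp only [d, symmDiff_comm]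
  have main : ∀ h : K, h ≠ 0 → ∀ δ : ℝ, 0 < δ → d (0, 1) (h, h + 1) ≤ 6 * δ := by
    intro h hh δ hδ
    obtain ⟨s, c, hc⟩ := exists_colour hm (EE lt) k hE δ hδ
    have h1 : ∀ j : s, ∃ v : K, ∀ b : K, c (0, b) = j → c (0, b) = c (0, v) := by
      intro j
      by_cases hj : ∃ v, c (0, v) = j
      · obtain ⟨v, hv⟩ := hj
        exact ⟨v, fun b hb => hb.trans hv.symm⟩
      · exact ⟨0, fun b hb => (hj ⟨b, hb⟩).elim⟩
    choose v hv using h1
    obtain ⟨g1, g2, hne, hg⟩ := Finite.exists_ne_map_eq_of_infinite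
      (fun g : K => fun j : s => c (g, v j + g))
    set G := g2 - g1 with hG
    have hG0 : G ≠ 0 := sub_ne_zero.mpr hne.symm
    set b := G / h with hb
    have hb0 : b ≠ 0 := div_ne_zero hG0 hh
    set w := v (c (0, b)) with hw
    have e1 : d (0, b) (0, w) ≤ 2 * δ := hc _ _ (hv _ b rfl)
    have e2 : d (0, w) (G, w + G) ≤ 2 * δ := by
      have := hc _ _ (congrFun hg (c (0, b)))
      rw [← dτ g1]
      simp only [zero_add, hG, sub_add_cancel, add_assoc]
      exact this
    have e3 : d (G, w + G) (G, b + G) ≤ 2 * δ := by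
      have := dτ G 0 w 0 b
      simp only [zero_add] at this
      rw [this, dsym]
      exact e1
    have e4 : d (0, 1) (h, h + 1) = d (0, b) (G, b + G) := by
      rw [← dσ b hb0 0 1]
      have : b * h = G := by rw [hb]; field_simp
      simp only [mul_zero, mul_one, mul_add, this, add_comm]
    rw [e4]
    linarith [dtri (0, b) (0, w) (G, b + G), dtri (0, w) (G, w + G) (G, b + G)]
  by_cases hg : g = 0
  · subst hg; simp [hm.empty]
  have hb : y - x ≠ 0 := sub_ne_zero.mpr hxy.symm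
  have e : d (x, y) (x + g, y + g) = d (0, 1) (g / (y - x), g / (y - x) + 1) := by
    rw [← dσ (y - x) hb 0 1, ← dτ x ((y - x) * 0)]
    congr 2
    · ring
    · ring
    · field_simp; ring
    · field_simp; ring
  refine le_antisymm ?_ (hm.nonneg _)
  show d (x, y) (x + g, y + g) ≤ 0
  rw [e]
  refine le_of_forall_pos_le_add fun ε hε => ?_
  have := main _ (div_ne_zero hg hb) (ε / 6) (by positivity)
  linarith

/-- A translation invariant order in the closure of the affine orbit of the given order. -/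
theorem exists_limit_order {K : Type*} [Field K] [Infinite K] (lt : K → K → Prop)
    [IsStrictTotalOrder K lt] (k : ℕ) (hE : VCle (EE lt) k) :
    ∃ r : K → K → Prop, IsStrictTotalOrder K r ∧ (∀ x y g, r x y → r (x + g) (y + g)) ∧
      ∀ P : Set (K × K), P.Finite → ∃ γ : K × Kˣ, ∀ p ∈ P, (γ ∈ EE lt p ↔ r p.1 p.2) := by
  obtain ⟨m, hm, hτ, hσ⟩ := exists_affine_mean K
  let F : Filter (K × Kˣ) :=
    { sets := {E | m Eᶜ = 0}
      univ_sets := by simp [hm.empty]
      sets_of_superset := fun {A B} hA hAB => le_antisymm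
        ((hm.mono (compl_subset_compl.mpr hAB)).trans (le_of_eq hA)) (hm.nonneg _)
      inter_sets := fun {A B} hA hB => by
        refine le_antisymm ?_ (hm.nonneg _)
        rw [compl_inter]
        have := hm.union_le Aᶜ Bᶜ
        have h1 : m Aᶜ = 0 := hA
        have h2 : m Bᶜ = 0 := hB
        linarith }
  have hF : F.NeBot := by
    rw [← Filter.forall_mem_nonempty_iff_neBot]
    intro A hA
    by_contra hne
    rw [not_nonempty_iff_eq_empty] at hne
    have h1 : m Aᶜ = 0 := hA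
    rw [hne, compl_empty, hm.univ] at h1
    norm_num at h1
  let V := Ultrafilter.of F
  have hV : (V : Filter _) ≤ F := Ultrafilter.of_le F
  have hirr : ∀ x, ¬ EE lt (x, x) ∈ V := by
    intro x hx
    obtain ⟨γ, hγ⟩ := V.nonempty_of_mem hx
    exact irrefl_of lt _ hγ
  refine ⟨fun x y => EE lt (x, y) ∈ V,
    { trichotomous := ?_, irrefl := hirr, trans := ?_ }, ?_, ?_⟩
  · intro x y h1 h2
    by_contra hne
    obtain ⟨γ, g1, g2⟩ := V.nonempty_of_mem (inter_mem (Ultrafilter.compl_mem_iff_notMem.mpr h1)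
      (Ultrafilter.compl_mem_iff_notMem.mpr h2))
    rcases trichotomous_of lt (γ.1 + γ.2 * x) (γ.1 + γ.2 * y) with h | h | h
    · exact g1 h
    · exact hne (mul_left_cancel₀ γ.2.ne_zero (add_left_cancel h))
    · exact g2 h
  · intro x y z h1 h2
    exact mem_of_superset (inter_mem h1 h2) fun γ hγ => trans_of lt hγ.1 hγ.2
  · intro x y g h
    have hxy : x ≠ y := by rintro rfl; exact hirr x h
    have h1 : (symmDiff (EE lt (x, y)) (EE lt (x + g, y + g)))ᶜ ∈ F := by
      show m _ = 0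
      rw [compl_compl]
      exact null_shift lt k hE hm hτ hσ x y g hxy
    refine mem_of_superset (inter_mem h (hV h1)) fun γ hγ => ?_
    by_contra h2
    exact hγ.2 (mem_symmDiff.mpr (Or.inl ⟨hγ.1, h2⟩))
  · intro P hP
    have h1 : ∀ᶠ γ in (V : Filter (K × Kˣ)), ∀ p ∈ P, (γ ∈ EE lt p ↔ EE lt (p.1, p.2) ∈ V) := by
      rw [Filter.eventually_all_finite hP]
      intro p _
      by_cases h : EE lt p ∈ V
      · exact mem_of_superset h fun γ hγ => iff_of_true hγ h
      · exact mem_of_superset (Ultrafilter.compl_mem_iff_notMem.mpr h)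
          fun γ hγ => iff_of_false hγ h
    exact h1.exists

theorem nested {K : Type*} [AddCommGroup K] [LinearOrder K] [IsOrderedAddMonoid K]
    [DenselyOrdered K] [Nontrivial K] (le' : K → K → Prop) (hfin : ∀ a, {y | le' y a}.Finite)
    (hex : ∀ F : Set K, F.Finite → ∃ a, ∀ y ∈ F, le' y a) (k : ℕ) :
    ∃ A : Finset (K × K), A.card = k ∧ ∀ B ⊆ A, ∃ lo hi : K, lo < hi ∧ ∀ z, lo < z → z < hi →
      ∀ p ∈ A, (p ∈ B ↔ ∃ y, le' y p.1 ∧ y < z ∧ z < y + p.2) := by
  classical
  induction k with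
  | zero =>
    obtain ⟨a, b, hab⟩ := exists_pair_lt K
    exact ⟨∅, rfl, fun B _ => ⟨a, b, hab, fun z _ _ p hp => by simp at hp⟩⟩
  | succ k ih =>
    obtain ⟨A, hA, hB⟩ := ih
    choose! lo hi hlt hz using hB
    have h1 : ∀ B ⊆ A, ∃ y, lo B < y ∧ y < hi B := fun B hB => exists_between (hlt B hB)
    choose! y hy1 hy2 using h1
    obtain ⟨a, ha⟩ := hex (y '' (A.powerset : Set (Finset (K × K))))
      ((Finset.finite_toSet _).image _)
    have h2 : ∀ B ⊆ A, ∃ n, y B < n ∧ n ≤ hi B ∧ ∀ u, le' u a → u < n → u ≤ y B := by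
      intro B hB
      obtain ⟨n, hn, hn2⟩ := Set.exists_min_image
        (insert (hi B) ({u | le' u a} ∩ {u | y B < u})) id
        (((hfin a).inter_of_left _).insert _) (insert_nonempty _ _)
      refine ⟨n, ?_, hn2 _ (mem_insert _ _), fun u hu hun => ?_⟩
      · rcases hn with rfl | hn
        · exact hy2 B hB
        · exact hn.2
      · by_contra hc
        exact absurd (hn2 u (mem_insert_of_mem _ ⟨hu, not_le.mp hc⟩)) (not_le.mpr hun)
    choose! n hn1 hn2 hn3 using h2
    have h3 : ∀ B ⊆ A, ∃ w, y B < w ∧ w < n B := fun B hB => exists_between (hn1 B hB)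
    choose! w hw1 hw2 using h3
    obtain ⟨B0, hB0, hmin⟩ := A.powerset.exists_min_image (fun B => w B - y B)
      ⟨∅, Finset.empty_mem_powerset _⟩
    set t := w B0 - y B0 with ht
    have ht0 : 0 < t := sub_pos.mpr (hw1 B0 (Finset.mem_powerset.mp hB0))
    have ht1 : ∀ B ⊆ A, y B + t ≤ w B := fun B hB =>
      le_sub_iff_add_le'.mp (hmin B (Finset.mem_powerset.mpr hB))
    have hpos : ∀ B ⊆ A, ∀ z, y B < z → z < y B + t → ∃ u, le' u a ∧ u < z ∧ z < u + t :=
      fun B hB z h1 h2 => ⟨y B, ha _ ⟨B, by simpa using hB, rfl⟩, h1, h2⟩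
    have hneg : ∀ B ⊆ A, ∀ z, w B < z → z < n B → ¬ ∃ u, le' u a ∧ u < z ∧ z < u + t := by
      rintro B hB z h1 h2 ⟨u, hu, hu1, hu2⟩
      have := hn3 B hB u hu (hu1.trans h2)
      have h4 : u + t ≤ w B := (add_le_add_left this t).trans (ht1 B hB)
      exact absurd (hu2.trans_le h4) (not_lt.mpr h1.le)
    have hnew : (a, t) ∉ A := by
      intro hmem
      obtain ⟨z, z1, z2⟩ := exists_between (lt_add_of_pos_right (y ∅) ht0)
      have e : (∅ : Finset (K × K)) ⊆ A := Finset.empty_subset _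
      have := (hz ∅ e z ((hy1 _ e).trans z1)
        (z2.trans_le ((ht1 _ e).trans ((hw2 _ e).le.trans (hn2 _ e)))) _ hmem).mpr
        (hpos ∅ e z z1 z2)
      simp at this
    refine ⟨insert (a, t) A, by rw [Finset.card_insert_of_notMem hnew, hA], fun B hB => ?_⟩
    have e : B.erase (a, t) ⊆ A := by
      intro p hp
      rcases Finset.mem_insert.mp (hB (Finset.mem_of_mem_erase hp)) with h | h
      · exact absurd h (Finset.ne_of_mem_erase hp)
      · exact h
    have hold : ∀ z, lo (B.erase (a, t)) < z → z < hi (B.erase (a, t)) → ∀ p ∈ A,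
        (p ∈ B ↔ ∃ y, le' y p.1 ∧ y < z ∧ z < y + p.2) := by
      intro z z1 z2 p hp
      rw [← hz _ e z z1 z2 p hp, Finset.mem_erase]
      exact ⟨fun h => ⟨fun h' => hnew (h' ▸ hp), h⟩, fun h => h.2⟩
    by_cases hin : (a, t) ∈ B
    · refine ⟨y (B.erase (a, t)), y (B.erase (a, t)) + t, lt_add_of_pos_right _ ht0,
        fun z z1 z2 p hp => ?_⟩
      rcases Finset.mem_insert.mp hp with rfl | hp
      · exact iff_of_true hin (hpos _ e z z1 z2)
      · exact hold z ((hy1 _ e).trans z1)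
          (z2.trans_le ((ht1 _ e).trans ((hw2 _ e).le.trans (hn2 _ e)))) p hp
    · refine ⟨w (B.erase (a, t)), n (B.erase (a, t)), hw2 _ e, fun z z1 z2 p hp => ?_⟩
      rcases Finset.mem_insert.mp hp with rfl | hp
      · exact iff_of_false hin (hneg _ e z z1 z2)
      · exact hold z ((hy1 _ e).trans ((hw1 _ e).trans z1)) (z2.trans_le (hn2 _ e)) p hp

theorem core {K : Type*} [Field K] [Infinite K] (lt : K → K → Prop) [IsStrictTotalOrder K lt]
    (le' : K → K → Prop) (hfin : ∀ a, {y | le' y a}.Finite)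
    (hex : ∀ F : Set K, F.Finite → ∃ a, ∀ y ∈ F, le' y a)
    (k1 : ℕ) (h1 : VCle (fun p : K × K =>
      {γ : K × K | lt (γ.1 + γ.2 * p.1) (γ.1 + γ.2 * p.2)}) k1)
    (k2 : ℕ) (h2 : VCle (fun q : K × K × K => {p : K × K | ∃ y, le' y p.1 ∧
      lt (q.2.1 + q.2.2 * y) (q.2.1 + q.2.2 * q.1) ∧
      lt (q.2.1 + q.2.2 * q.1) (q.2.1 + q.2.2 * (y + p.2))}) k2) : False := by
  classical
  have hE : VCle (EE lt) k1 := by
    intro A hA
    let j : K × Kˣ → K × K := fun γ => (γ.1, γ.2)
    have hj : Function.Injective j := by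
      intro a b hab
      simp only [j, Prod.mk.injEq, Units.val_inj] at hab
      exact Prod.ext hab.1 hab.2
    obtain ⟨B, hB, hB2⟩ := h1 (A.image j) (by rw [Finset.card_image_of_injective _ hj, hA])
    refine ⟨A.filter (j · ∈ B), Finset.filter_subset _ _, fun p hp => hB2 p fun a ha => ?_⟩
    obtain ⟨γ, hγ, rfl⟩ := Finset.mem_image.mp ha
    have := hp γ hγ
    simp only [Finset.mem_filter, hγ, true_and] at this
    exact this
  obtain ⟨r, hr, hinv, hlim⟩ := exists_limit_order lt k1 hE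
  let _inst : LinearOrder K := linearOrderOfSTO r
  have hlt : ∀ x y : K, x < y ↔ r x y := fun _ _ => Iff.rfl
  have : IsOrderedAddMonoid K := ⟨fun a b hab c => by
    rcases hab.lt_or_eq with h | h
    · exact (show a + c < b + c from hinv _ _ c h).le
    · rw [h], fun a b hab c => by
    rcases hab.lt_or_eq with h | h
    · rw [add_comm c, add_comm c]; exact (show a + c < b + c from hinv _ _ c h).le
    · rw [h]⟩
  have h20 : (2 : K) ≠ 0 := by
    intro h
    have h11 : (1 : K) + 1 = 0 := by rw [one_add_one_eq_two, h]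
    rcases lt_trichotomy (0 : K) 1 with h' | h' | h'
    · exact (add_pos h' h').ne' h11
    · exact zero_ne_one h'
    · exact (add_neg h' h').ne h11
  have : DenselyOrdered K := ⟨fun a b hab => by
    have e : (b - a) / 2 + (b - a) / 2 = b - a := by field_simp; ring
    have hp : 0 < (b - a) / 2 := by
      by_contra hc
      have h3 := add_nonpos (not_lt.mp hc) (not_lt.mp hc)
      rw [e] at h3
      exact absurd (sub_pos.mpr hab) (not_lt.mpr h3)
    refine ⟨a + (b - a) / 2, lt_add_of_pos_right _ hp, ?_⟩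
    have e2 : b = a + (b - a) / 2 + (b - a) / 2 := by rw [add_assoc, e]; ring
    conv_rhs => rw [e2]
    exact lt_add_of_pos_right _ hp⟩
  obtain ⟨A, hA, hB⟩ := nested le' hfin hex k2
  obtain ⟨B, hBA, hB2⟩ := h2 A hA
  obtain ⟨lo, hi, hlh, hz⟩ := hB B hBA
  obtain ⟨z, z1, z2⟩ := exists_between hlh
  obtain ⟨γ, hγ⟩ := hlim (⋃ p ∈ A, ⋃ y ∈ {y | le' y p.1}, {(y, z), (z, y + p.2)})
    ((Finset.finite_toSet A).biUnion fun p _ => (hfin p.1).biUnion fun y _ => toFinite _)
  refine hB2 (z, γ.1, γ.2) fun p hp => ?_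
  rw [hz z z1 z2 p hp]
  refine exists_congr fun y => and_congr_right fun hy => and_congr ?_ ?_
  · exact (hγ (y, z) (by simp only [mem_iUnion]; exact ⟨p, hp, y, hy, by simp⟩)).symm
  · exact (hγ (z, y + p.2) (by simp only [mem_iUnion]; exact ⟨p, hp, y, hy, by simp⟩)).symm

end Pool.Agent.H913Z.NIP
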