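import Mathlib
import Pool.Agent.H913Z.Core

set_option autoImplicit false

open FirstOrder FirstOrder.Language

namespace Pool.Agent.H913Z.NIP

section
variable (L : FirstOrder.Language.{0, 0}) [S : L.Structure ℕ]

/-- Definable relations on tuples of natural numbers. -/
def Df {α : Type} (P : (α → ℕ) → Prop) : Prop := ∃ φ : L.Formula α, ∀ v, φ.Realize v ↔ P v

variable {L} {α β : Type}

theorem Df.congr {P Q : (α → ℕ) → Prop} (h : Df L P) (e : ∀ v, P v ↔ Q v) : Df L Q := by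
  obtain ⟨φ, hφ⟩ := h
  exact ⟨φ, fun v => (hφ v).trans (e v)⟩

theorem Df.and {P Q : (α → ℕ) → Prop} (h : Df L P) (h' : Df L Q) : Df L fun v => P v ∧ Q v := by
  obtain ⟨φ, hφ⟩ := h
  obtain ⟨ψ, hψ⟩ := h'
  exact ⟨φ ⊓ ψ, fun v => by rw [Formula.realize_inf, hφ, hψ]⟩

theorem Df.not {P : (α → ℕ) → Prop} (h : Df L P) : Df L fun v => ¬ P v := by
  obtain ⟨φ, hφ⟩ := h
  exact ⟨φ.not, fun v => by rw [Formula.realize_not, hφ]⟩

theorem Df.imp {P Q : (α → ℕ) → Prop} (h : Df L P) (h' : Df L Q) : Df L fun v => P v → Q v :=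
  (h.and h'.not).not.congr fun v => by tauto

theorem Df.relabel {P : (α → ℕ) → Prop} (h : Df L P) (g : α → β) :
    Df L fun v : β → ℕ => P (v ∘ g) := by
  obtain ⟨φ, hφ⟩ := h
  exact ⟨φ.relabel g, fun v => by rw [Formula.realize_relabel, hφ]⟩

theorem Df.ex [Finite β] {P : (α ⊕ β → ℕ) → Prop} (h : Df L P) :
    Df L fun v : α → ℕ => ∃ w : β → ℕ, P (Sum.elim v w) := by
  obtain ⟨φ, hφ⟩ := h
  exact ⟨φ.iExs β, fun v => by simp only [Formula.realize_iExs, hφ]⟩

theorem Df.top : Df L fun _ : α → ℕ => True := ⟨⊤, fun v => by simp⟩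

theorem Df.eq (i j : α) : Df L fun v : α → ℕ => v i = v j :=
  ⟨Term.equal (Term.var i) (Term.var j), fun v => by simp⟩

theorem Df.all_fin {ι : Type} [Finite ι] {P : ι → (α → ℕ) → Prop} (h : ∀ i, Df L (P i)) :
    Df L fun v => ∀ i, P i v := by
  classical
  have := Fintype.ofFinite ι
  have key : ∀ s : Finset ι, Df L fun v => ∀ i ∈ s, P i v := by
    intro s
    induction s using Finset.induction_on with
    | empty => exact Df.top.congr fun v => by simp
    | insert j s _ ih => exact ((h j).and ih).congr fun v => by simp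
  exact (key Finset.univ).congr fun v => by simp

theorem Df.ex_fin {ι : Type} [Finite ι] {P : ι → (α → ℕ) → Prop} (h : ∀ i, Df L (P i)) :
    Df L fun v => ∃ i, P i v :=
  (Df.all_fin fun i => (h i).not).not.congr fun v => by simp

theorem Df.const (p : Prop) : Df L fun _ : α → ℕ => p := by
  by_cases h : p
  · exact Df.top.congr fun _ => by simp [h]
  · exact Df.top.not.congr fun _ => by simp [h]

end

section
variable (L : FirstOrder.Language.{0, 0}) [S : L.Structure ℕ] {K : Type} {n : ℕ}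
  (D : (Fin n → ℕ) → Prop) (f : (Fin n → ℕ) → K)

/-- Relations on `K` that are definable through the interpretation. -/
def KD {ι : Type} (P : (ι → K) → Prop) : Prop :=
  ∃ Q : (ι × Fin n → ℕ) → Prop, Df L Q ∧ ∀ a : ι → Fin n → ℕ, (∀ i, D (a i)) →
    (Q (fun p => a p.1 p.2) ↔ P fun i => f (a i))

variable {L D f} {ι κ : Type}

theorem KD.congr {P Q : (ι → K) → Prop} (h : KD L D f P) (e : ∀ v, P v ↔ Q v) : KD L D f Q := by
  obtain ⟨R, h1, h2⟩ := h
  exact ⟨R, h1, fun a ha => (h2 a ha).trans (e _)⟩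

theorem KD.and {P Q : (ι → K) → Prop} (h : KD L D f P) (h' : KD L D f Q) :
    KD L D f fun v => P v ∧ Q v := by
  obtain ⟨R, h1, h2⟩ := h
  obtain ⟨R', h1', h2'⟩ := h'
  exact ⟨_, h1.and h1', fun a ha => and_congr (h2 a ha) (h2' a ha)⟩

theorem KD.relabel {P : (ι → K) → Prop} (h : KD L D f P) (g : ι → κ) :
    KD L D f fun v : κ → K => P (v ∘ g) := by
  obtain ⟨R, h1, h2⟩ := h
  exact ⟨_, h1.relabel (Prod.map g id), fun a ha => h2 (a ∘ g) fun i => ha _⟩

theorem KD.ex (hD : Df L D) (hf : ∀ x, ∃ a, D a ∧ f a = x) {P : (Option ι → K) → Prop}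
    (h : KD L D f P) : KD L D f fun v : ι → K => ∃ x, P fun o => o.elim x v := by
  obtain ⟨R, h1, h2⟩ := h
  let g : Option ι × Fin n → (ι × Fin n) ⊕ Fin n := fun p =>
    p.1.elim (Sum.inr p.2) fun i => Sum.inl (i, p.2)
  refine ⟨_, ((hD.relabel Sum.inr).and (h1.relabel g)).ex, fun a ha => ?_⟩
  have key : ∀ w : Fin n → ℕ, D w →
      (R (Sum.elim (fun p : ι × Fin n => a p.1 p.2) w ∘ g) ↔
        P fun o => o.elim (f w) fun i => f (a i)) := by
    intro w hw
    have := h2 (fun o => o.elim w a) (fun o => by cases o <;> simp [hw, ha])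
    convert this using 2
    · funext p
      obtain ⟨o, j⟩ := p
      cases o <;> rfl
    · funext o
      cases o <;> rfl
  constructor
  · rintro ⟨w, hw, hR⟩
    exact ⟨f w, (key w hw).mp hR⟩
  · rintro ⟨x, hx⟩
    obtain ⟨w, hw, rfl⟩ := hf x
    exact ⟨w, hw, (key w hw).mpr hx⟩

theorem KD.vc [Finite ι] [Finite κ] (hf : ∀ x, ∃ a, D a ∧ f a = x)
    (hN : ∀ (n m : ℕ) (φ : L.Formula (Fin n ⊕ Fin m)), ∃ k : ℕ,
        ∀ A : Finset (Fin n → ℕ), A.card = k →
          ∃ B ⊆ A, ∀ b : Fin m → ℕ, ¬ (∀ a ∈ A, (a ∈ B ↔ φ.Realize (Sum.elim a b))))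
    {P : (ι ⊕ κ → K) → Prop} (h : KD L D f P) :
    ∃ k, VCle (fun b : κ → K => {a : ι → K | P (Sum.elim a b)}) k := by
  classical
  obtain ⟨R, h1, h2⟩ := h
  obtain ⟨N, ⟨e1⟩⟩ := Finite.exists_equiv_fin (ι × Fin n)
  obtain ⟨M, ⟨e2⟩⟩ := Finite.exists_equiv_fin (κ × Fin n)
  let g : (ι ⊕ κ) × Fin n → Fin N ⊕ Fin M := fun p =>
    p.1.elim (fun i => Sum.inl (e1 (i, p.2))) fun i => Sum.inr (e2 (i, p.2))
  obtain ⟨φ, hφ⟩ := h1.relabel g
  obtain ⟨k, hk⟩ := hN N M φ
  choose s hs1 hs2 using hf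
  let j : (ι → K) → Fin N → ℕ := fun a i => s (a (e1.symm i).1) (e1.symm i).2
  let j' : (κ → K) → Fin M → ℕ := fun a i => s (a (e2.symm i).1) (e2.symm i).2
  have hj : Function.Injective j := by
    intro a b hab
    funext i
    rw [← hs2 (a i), ← hs2 (b i)]
    congr 1
    funext t
    simpa [j] using congrFun hab (e1 (i, t))
  have key : ∀ a b, φ.Realize (Sum.elim (j a) (j' b)) ↔ P (Sum.elim a b) := by
    intro a b
    rw [hφ]
    have := h2 (fun i => s (Sum.elim a b i)) (fun i => hs1 _)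
    simp only [hs2] at this
    convert this using 2
    funext p
    obtain ⟨o, t⟩ := p
    cases o <;> simp [g, j, j']
  refine ⟨k, fun A hA => ?_⟩
  obtain ⟨B, hB, hB2⟩ := hk (A.image j) (by rw [Finset.card_image_of_injective _ hj, hA])
  refine ⟨A.filter (j · ∈ B), Finset.filter_subset _ _, fun b hb => hB2 (j' b) fun a ha => ?_⟩
  obtain ⟨c, hc, rfl⟩ := Finset.mem_image.mp ha
  have := hb c hc
  simp only [Finset.mem_filter, hc, true_and, Set.mem_ofPred_eq] at this
  rw [key]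
  exact this

/-- Definable functions. -/
def KF (L : FirstOrder.Language.{0, 0}) [L.Structure ℕ] (D : (Fin n → ℕ) → Prop)
    (f : (Fin n → ℕ) → K) (g : (ι → K) → K) : Prop :=
  KD L D f fun v : Option ι → K => g (v ∘ some) = v none

theorem KD.comp2 (hD : Df L D) (hf : ∀ x, ∃ a, D a ∧ f a = x) {R : K → K → Prop}
    (hR : KD L D f fun v : Fin 2 → K => R (v 0) (v 1)) {g1 g2 : (ι → K) → K}
    (h1 : KF L D f g1) (h2 : KF L D f g2) : KD L D f fun v => R (g1 v) (g2 v) := by
  have a1 := KD.relabel h1 (κ := Option (Option ι)) fun o => o.elim none fun i => some (some i)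
  have a2 := KD.relabel h2 (κ := Option (Option ι)) fun o => some o
  have a3 := KD.relabel hR (κ := Option (Option ι)) ![none, some none]
  refine (KD.ex hD hf (KD.ex hD hf (a1.and (a2.and a3)))).congr fun v => ?_
  constructor
  · rintro ⟨x, y, e1, e2, e3⟩
    have e1' : g1 v = y := e1
    have e2' : g2 v = x := e2
    rw [e1', e2']
    exact e3
  · intro h
    exact ⟨g2 v, g1 v, rfl, rfl, h⟩

theorem KF.op (hD : Df L D) (hf : ∀ x, ∃ a, D a ∧ f a = x) {op : K → K → K}
    (hR : KD L D f fun v : Fin 3 → K => op (v 0) (v 1) = v 2) {g1 g2 : (ι → K) → K}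
    (h1 : KF L D f g1) (h2 : KF L D f g2) : KF L D f fun v => op (g1 v) (g2 v) := by
  have a1 := KD.relabel h1 (κ := Option (Option (Option ι)))
    fun o => o.elim none fun i => some (some (some i))
  have a2 := KD.relabel h2 (κ := Option (Option (Option ι)))
    fun o => o.elim (some none) fun i => some (some (some i))
  have a3 := KD.relabel hR (κ := Option (Option (Option ι))) ![none, some none, some (some none)]
  refine (KD.ex hD hf (KD.ex hD hf (a1.and (a2.and a3)))).congr fun v => ?_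
  constructor
  · rintro ⟨x, y, e1, e2, e3⟩
    have e1' : g1 (v ∘ some) = y := e1
    have e2' : g2 (v ∘ some) = x := e2
    show op (g1 (v ∘ some)) (g2 (v ∘ some)) = v none
    rw [e1', e2']
    exact e3
  · intro h
    exact ⟨g2 (v ∘ some), g1 (v ∘ some), rfl, rfl, h⟩

theorem KF.var (hE : KD L D f fun v : Fin 2 → K => v 0 = v 1) (i : ι) :
    KF L D f fun v => v i :=
  KD.relabel hE (κ := Option ι) ![some i, none]

end

theorem VCle.comp {X Y I J : Type*} {E : I → Set X} {k : ℕ} (h : VCle E k) (j : Y → X)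
    (hj : Function.Injective j) (g : J → I) : VCle (fun i => j ⁻¹' E (g i)) k := by
  classical
  intro A hA
  obtain ⟨B, hB, hB2⟩ := h (A.image j) (by rw [Finset.card_image_of_injective _ hj, hA])
  refine ⟨A.filter (j · ∈ B), Finset.filter_subset _ _, fun b hb => hB2 (g b) fun a ha => ?_⟩
  obtain ⟨c, hc, rfl⟩ := Finset.mem_image.mp ha
  have := hb c hc
  simp only [Finset.mem_filter, hc, true_and] at this
  exact this

theorem final (L : FirstOrder.Language.{0, 0}) [S : L.Structure ℕ]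
    (hlt : Df L fun v : Fin 2 → ℕ => v 0 < v 1)
    (hN : ∀ (n m : ℕ) (φ : L.Formula (Fin n ⊕ Fin m)), ∃ k : ℕ,
        ∀ A : Finset (Fin n → ℕ), A.card = k →
          ∃ B ⊆ A, ∀ b : Fin m → ℕ, ¬ (∀ a ∈ A, (a ∈ B ↔ φ.Realize (Sum.elim a b))))
    {K : Type} [Field K] [Infinite K] {n : ℕ} (D : (Fin n → ℕ) → Prop) (f : (Fin n → ℕ) → K)
    (hD : Df L D) (hf : ∀ x, ∃ a, D a ∧ f a = x)
    (hE : KD L D f fun v : Fin 2 → K => v 0 = v 1)
    (hA : KD L D f fun v : Fin 3 → K => v 0 + v 1 = v 2)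
    (hM : KD L D f fun v : Fin 3 → K => v 0 * v 1 = v 2) : False := by
  classical
  have hlt' : ∀ {α : Type} (i j : α), Df L fun v : α → ℕ => v i < v j :=
    fun i j => hlt.relabel ![i, j]
  -- relations of the form: some representative of `x` is related to all representatives of `y`
  have gen : ∀ T : (Fin n → ℕ) → (Fin n → ℕ) → Prop,
      (Df L fun v : Fin n ⊕ Fin n → ℕ => T (v ∘ Sum.inl) (v ∘ Sum.inr)) →
      KD L D f fun v : Fin 2 → K => ∃ a, D a ∧ f a = v 0 ∧ ∀ b, D b → f b = v 1 → T a b := by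
    intro T hT
    obtain ⟨R, hR, hR2⟩ := hE
    have hR3 : ∀ a b, D a → D b → (R (fun p => ![a, b] p.1 p.2) ↔ f a = f b) :=
      fun a b ha hb => hR2 ![a, b] (fun i => by fin_cases i <;> simp [ha, hb])
    let α := ((Fin 2 × Fin n) ⊕ Fin n) ⊕ Fin n
    have b1 := hD.relabel (β := α) Sum.inr
    have b2 := hR.relabel (β := α) fun p => ![Sum.inr p.2, Sum.inl (Sum.inl (1, p.2))] p.1
    have b3 := hT.relabel (β := α) (Sum.elim (fun i => Sum.inl (Sum.inr i)) Sum.inr)
    have b4 := (b1.and (b2.and b3.not)).ex.not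
    have b5 := hD.relabel (β := (Fin 2 × Fin n) ⊕ Fin n) Sum.inr
    have b6 := hR.relabel (β := (Fin 2 × Fin n) ⊕ Fin n)
      fun p => ![Sum.inr p.2, Sum.inl (0, p.2)] p.1
    refine ⟨_, (b5.and (b6.and b4)).ex, fun c hc => ?_⟩
    refine exists_congr fun a => and_congr_right fun ha => and_congr ?_ ?_
    · rw [← hR3 a (c 0) ha (hc 0)]
      refine iff_of_eq (congrArg R ?_)
      funext p
      obtain ⟨o, t⟩ := p
      fin_cases o <;> rfl
    · rw [not_exists]
      refine forall_congr' fun b => ?_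
      rw [not_and]
      refine imp_congr_right fun hb => ?_
      rw [not_and, not_not, ← hR3 b (c 1) hb (hc 1)]
      refine imp_congr (iff_of_eq (congrArg R ?_)) Iff.rfl
      funext p
      obtain ⟨o, t⟩ := p
      fin_cases o <;> rfl
  -- the linear order
  have hrep : ∀ x : K, ∃ a, D a ∧ f a = x ∧ ∀ b, D b → f b = x → toLex a ≤ toLex b := by
    intro x
    obtain ⟨a, ha, ha2⟩ := (wellFounded_lt (α := Lex (Fin n → ℕ))).has_min
      {a | D (ofLex a) ∧ f (ofLex a) = x} (by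
        obtain ⟨a, ha⟩ := hf x
        exact ⟨toLex a, ha⟩)
    exact ⟨ofLex a, ha.1, ha.2, fun b h1 h2 => not_lt.mp (ha2 (toLex b) ⟨h1, h2⟩)⟩
  choose rep r1 r2 r3 using hrep
  let lt : K → K → Prop := fun x y => toLex (rep x) < toLex (rep y)
  have hsto : IsStrictTotalOrder K lt :=
    { trichotomous := fun x y h1 h2 => by
        have : toLex (rep x) = toLex (rep y) := le_antisymm (not_lt.mp h2) (not_lt.mp h1)
        rw [← r2 x, ← r2 y, toLex.injective this]
      irrefl := fun x => lt_irrefl _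
      trans := fun x y z => lt_trans }
  have dlt : KD L D f fun v : Fin 2 → K => lt (v 0) (v 1) := by
    refine (gen (fun a b => toLex a < toLex b) ?_).congr fun v => ?_
    · have : Df L fun v : Fin n ⊕ Fin n → ℕ => ∃ i : Fin n,
          (∀ j : Fin n, j < i → v (Sum.inl j) = v (Sum.inr j)) ∧ v (Sum.inl i) < v (Sum.inr i) :=
        Df.ex_fin fun i => (Df.all_fin fun j => (Df.const _).imp (Df.eq _ _)).and (hlt' _ _)
      exact this
    · constructor
      · rintro ⟨a, a1, a2, a3⟩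
        exact (r3 _ a a1 a2).trans_lt (a3 _ (r1 _) (r2 _))
      · intro h
        exact ⟨rep (v 0), r1 _, r2 _, fun b b1 b2 => lt_of_lt_of_le h (r3 _ b b1 b2)⟩
  let le' : K → K → Prop := fun x y =>
    ∃ a, D a ∧ f a = x ∧ ∀ b, D b → f b = y → ∀ i, ∃ j, ¬ b j < a i
  have dle : KD L D f fun v : Fin 2 → K => le' (v 0) (v 1) :=
    gen (fun a b => ∀ i, ∃ j, ¬ b j < a i)
      (Df.all_fin fun i => Df.ex_fin fun j => (hlt' (Sum.inr j) (Sum.inl i)).not)
  have hbox : ∀ N : ℕ, {a : Fin n → ℕ | ∀ i, a i ≤ N}.Finite := fun N =>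
    (Set.Finite.pi' fun _ : Fin n => Set.finite_Iic N)
  have hfin : ∀ y, {x | le' x y}.Finite := by
    intro y
    refine ((hbox (Finset.univ.sup (rep y))).image f).subset ?_
    rintro x ⟨a, -, a2, a3⟩
    refine ⟨a, fun i => ?_, a2⟩
    obtain ⟨j, hj⟩ := a3 _ (r1 y) (r2 y) i
    exact (not_lt.mp hj).trans (Finset.le_sup (f := rep y) (Finset.mem_univ j))
  have hex : ∀ F : Set K, F.Finite → ∃ y, ∀ x ∈ F, le' x y := by
    intro F hF
    let N := hF.toFinset.sup fun x => Finset.univ.sup (rep x)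
    obtain ⟨y, hy⟩ := ((hbox N).image f).exists_notMem
    refine ⟨y, fun x hx => ⟨rep x, r1 x, r2 x, fun b _ b2 i => ?_⟩⟩
    by_contra hc
    push Not at hc
    refine hy ⟨b, fun j => (hc j).le.trans ?_, b2⟩
    exact (Finset.le_sup (f := rep x) (Finset.mem_univ i)).trans
      (Finset.le_sup (f := fun x => Finset.univ.sup (rep x)) (hF.mem_toFinset.mpr hx))
  have aff : ∀ {ι : Type} (c l : ι) {g : (ι → K) → K}, KF L D f g →
      KF L D f fun v => v c + v l * g v := fun c l _ hg =>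
    KF.op hD hf hA (KF.var hE c) (KF.op hD hf hM (KF.var hE l) hg)
  have F1 : KD L D f fun v : Fin 2 ⊕ Fin 2 → K =>
      lt (v (Sum.inl 0) + v (Sum.inl 1) * v (Sum.inr 0))
        (v (Sum.inl 0) + v (Sum.inl 1) * v (Sum.inr 1)) :=
    KD.comp2 hD hf dlt (aff _ _ (KF.var hE _)) (aff _ _ (KF.var hE _))
  have F2 : KD L D f fun v : Option (Fin 2 ⊕ Fin 3) → K =>
      le' (v none) (v (some (Sum.inl 0))) ∧
      lt (v (some (Sum.inr 1)) + v (some (Sum.inr 2)) * v none)
        (v (some (Sum.inr 1)) + v (some (Sum.inr 2)) * v (some (Sum.inr 0))) ∧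
      lt (v (some (Sum.inr 1)) + v (some (Sum.inr 2)) * v (some (Sum.inr 0)))
        (v (some (Sum.inr 1)) + v (some (Sum.inr 2)) * (v none + v (some (Sum.inl 1)))) :=
    (KD.comp2 hD hf dle (KF.var hE _) (KF.var hE _)).and
      ((KD.comp2 hD hf dlt (aff _ _ (KF.var hE _)) (aff _ _ (KF.var hE _))).and
        (KD.comp2 hD hf dlt (aff _ _ (KF.var hE _))
          (aff _ _ (KF.op hD hf hA (KF.var hE _) (KF.var hE _)))))
  obtain ⟨k1, h1⟩ := KD.vc hf hN F1
  obtain ⟨k2, h2⟩ := KD.vc hf hN (KD.ex hD hf F2)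
  have hj : Function.Injective fun p : K × K => ![p.1, p.2] := by
    intro p q h
    exact Prod.ext (congrFun h 0) (congrFun h 1)
  exact core lt le' hfin hex k1 (h1.comp _ hj fun p : K × K => ![p.1, p.2]) k2
    (h2.comp _ hj fun q : K × K × K => ![q.1, q.2.1, q.2.2])

end Pool.Agent.H913Z.NIP
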