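import Mathlib

set_option autoImplicit false

open MeasureTheory Filter Topology

namespace Pool.Agent.H913Z.Level

/-- The multiplicative group of nonzero complex numbers, with the discrete topology. -/
def Dg : Type := ℂˣ

noncomputable instance : CommGroup Dg := inferInstanceAs (CommGroup ℂˣ)
instance : TopologicalSpace Dg := ⊥
instance : DiscreteTopology Dg := ⟨rfl⟩

abbrev Gh : Type := Dg →ₜ* Circle

noncomputable instance : MeasurableSpace Gh := borel _
instance : BorelSpace Gh := ⟨rfl⟩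

noncomputable def ofHom (φ : ℂˣ →* Circle) : Gh :=
  { toMonoidHom := φ, continuous_toFun := continuous_of_discreteTopology }

theorem exists_sep (z : ℂˣ) (hz : z ≠ 1) : ∃ χ : Gh, χ z ≠ 1 := by
  by_cases h : ‖(z : ℂ)‖ = 1
  · let φ : ℂˣ →* Circle :=
      { toFun := fun w => ⟨(w : ℂ) / ‖(w : ℂ)‖, by
          simp [Submonoid.unitSphere, norm_ne_zero_iff.mpr w.ne_zero]⟩
        map_one' := by ext; simp
        map_mul' := fun a b => by
          ext
          show ((a * b : ℂˣ) : ℂ) / ‖((a * b : ℂˣ) : ℂ)‖ = (a : ℂ) / ‖(a : ℂ)‖ * ((b : ℂ) / ‖(b : ℂ)‖)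
          rw [Units.val_mul, norm_mul]; push_cast; ring }
    refine ⟨ofHom φ, fun h1 => hz ?_⟩
    have : (z : ℂ) / ‖(z : ℂ)‖ = 1 := congrArg (fun c : Circle => (c : ℂ)) h1
    rw [h] at this
    ext
    simpa using this
  · have hl : Real.log ‖(z : ℂ)‖ ≠ 0 :=
      Real.log_ne_zero_of_pos_of_ne_one (norm_pos_iff.mpr z.ne_zero) h
    let φ : ℂˣ →* Circle :=
      { toFun := fun w => Circle.exp (Real.pi * (Real.log ‖(w : ℂ)‖ / Real.log ‖(z : ℂ)‖))
        map_one' := by simp
        map_mul' := fun a b => by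
          rw [← Circle.exp_add, Units.val_mul, norm_mul,
            Real.log_mul (norm_ne_zero_iff.mpr a.ne_zero) (norm_ne_zero_iff.mpr b.ne_zero)]
          congr 1; ring }
    refine ⟨ofHom φ, fun h1 => ?_⟩
    have h2 : Circle.exp (Real.pi * (Real.log ‖(z : ℂ)‖ / Real.log ‖(z : ℂ)‖)) = 1 := h1
    rw [div_self hl, mul_one] at h2
    have := congrArg (fun c : Circle => (c : ℂ)) h2
    simp only [Circle.coe_exp, Complex.exp_pi_mul_I, Circle.coe_one] at this
    norm_num at this

noncomputable def haar : Measure Gh := Measure.haarMeasure ⊤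

instance : haar.IsMulLeftInvariant := by unfold haar; infer_instance

instance : IsProbabilityMeasure haar := ⟨by
  have := Measure.haarMeasure_self (G := Gh) (K₀ := ⊤)
  simpa [haar] using this⟩

theorem cont_ev (z : Dg) : Continuous fun χ : Gh => ((χ z : Circle) : ℂ) :=
  continuous_subtype_val.comp (continuous_eval_const z)

theorem orth (z : ℂˣ) : ∫ χ : Gh, ((χ z : Circle) : ℂ) ∂haar = if z = 1 then 1 else 0 := by
  split_ifs with h
  · subst h
    have : ∀ χ : Gh, ((χ (1 : ℂˣ) : Circle) : ℂ) = 1 := fun χ => by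
      have : χ (1 : Dg) = 1 := map_one χ
      exact congrArg (fun c : Circle => (c : ℂ)) this
    simp [this]
  · obtain ⟨ψ, hψ⟩ := exists_sep z h
    have h1 := integral_mul_left_eq_self (μ := haar) (fun χ : Gh => ((χ z : Circle) : ℂ)) ψ
    have h2 : ∀ χ : Gh, (((ψ * χ) z : Circle) : ℂ) = ((ψ z : Circle) : ℂ) * (χ z : Circle) :=
      fun χ => rfl
    simp only [h2, integral_const_mul] at h1
    have h3 : ((ψ z : Circle) : ℂ) - 1 ≠ 0 := by
      rw [sub_ne_zero]
      intro h4
      exact hψ (Circle.ext h4)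
    refine (mul_eq_zero.mp ?_).resolve_left h3
    rw [sub_mul, h1, one_mul, sub_self]

/-- logarithmic average -/
noncomputable def avg (a : ℕ → ℂ) (N : ℕ) : ℂ :=
  ((1 : ℂ) / ((Real.log (N : ℝ) : ℝ) : ℂ)) * ∑ n ∈ Finset.Icc 1 N, ((1 : ℂ) / (n : ℂ)) * a n

theorem avg_bound (a : ℕ → ℂ) (B : ℝ) (hB : ∀ n, ‖a n‖ ≤ B) (N : ℕ) (hN : 3 ≤ N) :
    ‖avg a N‖ ≤ 2 * B := by
  have hB0 : 0 ≤ B := (norm_nonneg _).trans (hB 0)
  have h1 : 1 ≤ Real.log N := by
    rw [Real.le_log_iff_exp_le (by positivity)]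
    have : (3 : ℝ) ≤ N := by exact_mod_cast hN
    linarith [Real.exp_one_lt_d9]
  have h2 : ∑ n ∈ Finset.Icc 1 N, (1 / (n : ℝ)) ≤ 1 + Real.log N := by
    have := harmonic_le_one_add_log N
    rw [harmonic_eq_sum_Icc] at this
    push_cast at this
    simpa [one_div] using this
  rw [avg, norm_mul, norm_div, norm_one, Complex.norm_real, Real.norm_eq_abs,
    abs_of_nonneg (by linarith)]
  have h3 : ‖∑ n ∈ Finset.Icc 1 N, ((1 : ℂ) / (n : ℂ)) * a n‖ ≤ (1 + Real.log N) * B := by
    refine (norm_sum_le _ _).trans ?_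
    refine le_trans ?_ (mul_le_mul_of_nonneg_right h2 hB0)
    rw [Finset.sum_mul]
    refine Finset.sum_le_sum fun n _ => ?_
    rw [norm_mul, norm_div, norm_one, Complex.norm_natCast]
    exact mul_le_mul_of_nonneg_left (hB n) (by positivity)
  rw [div_mul_eq_mul_div, one_mul, div_le_iff₀ (by linarith)]
  nlinarith

open Classical in
/-- the twist of `g` by a character -/
noncomputable def twist (χ : Gh) (g : ℕ → ℂ) (n : ℕ) : ℂ :=
  if h : g n = 0 then 0 else ((χ (Units.mk0 (g n) h) : Circle) : ℂ)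

theorem twist_norm (χ : Gh) (g : ℕ → ℂ) (n : ℕ) : ‖twist χ g n‖ ≤ 1 := by
  unfold twist
  split_ifs
  · simp
  · exact (Circle.norm_coe _).le

theorem twist_one (χ : Gh) (g : ℕ → ℂ) (h : g 1 = 1) : twist χ g 1 = 1 := by
  unfold twist
  rw [dif_neg (by simp [h])]
  have : Units.mk0 (g 1) (by simp [h]) = 1 := by ext; simp [h]
  rw [this]
  exact congrArg (fun c : Circle => (c : ℂ)) (map_one χ)

theorem twist_mul (χ : Gh) (g : ℕ → ℂ) (m n : ℕ) (h : g (m * n) = g m * g n) :
    twist χ g (m * n) = twist χ g m * twist χ g n := by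
  unfold twist
  by_cases hm : g m = 0
  · simp [h, hm]
  by_cases hn : g n = 0
  · simp [h, hn]
  rw [dif_neg (by simp [h, hm, hn]), dif_neg hm, dif_neg hn]
  have : Units.mk0 (g (m * n)) (by simp [h, hm, hn]) = Units.mk0 _ hm * Units.mk0 _ hn := by
    ext; simp [h]
  rw [this]
  exact congrArg (fun c : Circle => (c : ℂ)) (map_mul χ _ _)

theorem cont_twist (g : ℕ → ℂ) (n : ℕ) : Continuous fun χ => twist χ g n := by
  unfold twist
  split_ifs
  · exact continuous_const
  · exact cont_ev _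

open Classical in
theorem integral_twist (g : ℕ → ℂ) (n : ℕ) (c : ℂˣ) :
    ∫ χ : Gh, ((χ c⁻¹ : Circle) : ℂ) * twist χ g n ∂haar = if g n = c then 1 else 0 := by
  unfold twist
  by_cases h : g n = 0
  · simp [h, c.ne_zero.symm]
  · simp only [dif_neg h]
    have : ∀ χ : Gh, ((χ c⁻¹ : Circle) : ℂ) * ((χ (Units.mk0 (g n) h) : Circle) : ℂ) =
        ((χ (c⁻¹ * Units.mk0 (g n) h : ℂˣ) : Circle) : ℂ) :=
      fun χ => (congrArg (fun c : Circle => (c : ℂ)) (map_mul χ _ _)).symm
    simp only [this, orth]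
    congr 1
    rw [inv_mul_eq_one, eq_comm, Units.ext_iff, Units.val_mk0]
    exact propext eq_comm

open Classical in
theorem transfer (a : ℕ → ℂ) (B : ℝ) (hB : ∀ n, ‖a n‖ ≤ B)
    (H : ∀ h : ℕ → ℂ, h 1 = 1 → (∀ m n, Nat.Coprime m n → h (m * n) = h m * h n) →
      (∀ n, ‖h n‖ ≤ 1) → Tendsto (avg fun n => h n * a n) atTop (𝓝 0))
    (g : ℕ → ℂ) (g1 : g 1 = 1) (gm : ∀ m n, Nat.Coprime m n → g (m * n) = g m * g n) (c : ℂ) :
    Tendsto (avg fun n => (if g n = c then 1 else 0) * a n) atTop (𝓝 0) := by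
  have HT : ∀ χ : Gh, Tendsto (avg fun n => twist χ g n * a n) atTop (𝓝 0) := fun χ =>
    H _ (twist_one χ g g1) (fun m n h => twist_mul χ g m n (gm m n h)) (twist_norm χ g)
  by_cases hc : c = 0
  · subst hc
    have h1 := (H (fun _ => 1) rfl (by simp) (by simp)).sub (HT 1)
    rw [sub_zero] at h1
    refine h1.congr fun N => ?_
    simp only [avg]
    rw [← mul_sub, ← Finset.sum_sub_distrib]
    congr 1
    refine Finset.sum_congr rfl fun n _ => ?_
    unfold twist
    split_ifs with h
    · simp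
    · have : (((1 : Gh) (Units.mk0 (g n) h) : Circle) : ℂ) = 1 := rfl
      rw [this]
      simp
  · obtain ⟨c, rfl⟩ : ∃ u : ℂˣ, (u : ℂ) = c := ⟨Units.mk0 c hc, rfl⟩
    let F : ℕ → Gh → ℂ := fun N χ => ((χ c⁻¹ : Circle) : ℂ) * avg (fun n => twist χ g n * a n) N
    have hF : ∀ N, F N = fun χ => ((1 : ℂ) / ((Real.log (N : ℝ) : ℝ) : ℂ)) *
        ∑ n ∈ Finset.Icc 1 N, ((1 : ℂ) / (n : ℂ)) *
          ((((χ c⁻¹ : Circle) : ℂ) * twist χ g n) * a n) := by
      intro N
      funext χ
      simp only [F, avg, Finset.mul_sum]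
      refine Finset.sum_congr rfl fun n _ => ?_
      ring
    have hc : ∀ n, Continuous fun χ : Gh => ((χ c⁻¹ : Circle) : ℂ) * twist χ g n :=
      fun n => (cont_ev _).mul (cont_twist g n)
    have hcont : ∀ N, Continuous (F N) := by
      intro N
      rw [hF]
      exact continuous_const.mul (continuous_finsetSum _ fun n _ =>
        continuous_const.mul ((hc n).mul continuous_const))
    have h1 : Tendsto (fun N => ∫ χ, F N χ ∂haar) atTop (𝓝 (∫ _χ : Gh, (0 : ℂ) ∂haar)) := by
      refine tendsto_integral_filter_of_dominated_convergence (fun _ => 2 * B)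
        (Eventually.of_forall fun N => (hcont N).aestronglyMeasurable) ?_ (integrable_const _) ?_
      · filter_upwards [eventually_ge_atTop 3] with N hN
        refine Eventually.of_forall fun χ => ?_
        simp only [F, norm_mul, Circle.norm_coe, one_mul]
        refine avg_bound _ B (fun n => ?_) N hN
        rw [norm_mul]
        exact (mul_le_of_le_one_left (norm_nonneg _) (twist_norm χ g n)).trans (hB n)
      · refine Eventually.of_forall fun χ => ?_
        have := (HT χ).const_mul ((χ c⁻¹ : Circle) : ℂ)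
        rwa [mul_zero] at this
    rw [integral_zero] at h1
    refine h1.congr fun N => ?_
    rw [hF, integral_const_mul, integral_finsetSum]
    · simp only [avg, integral_const_mul, integral_mul_const, integral_twist]
    · intro n _
      exact (continuous_const.mul ((hc n).mul continuous_const)).integrable_of_hasCompactSupport
        (HasCompactSupport.of_compactSpace _)

end Pool.Agent.H913Z.Level
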