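import Mathlib

set_option autoImplicit false

open scoped TensorProduct

namespace Pool.Agent.H913Z.QCube

/-- Sparse vectors with Laurent monomial coefficients. -/
abbrev SV (ι : Type) := List (ι × ℤ × ℤ)

section
variable {ι κ ρ σ : Type}

def smulT (e c : ℤ) (l : SV ι) : SV ι := l.map fun t => (t.1, e + t.2.1, c * t.2.2)

def app (T : ι → SV κ) (l : SV ι) : SV κ := l.flatMap fun t => smulT t.2.1 t.2.2 (T t.1)

def ins [DecidableEq ι] (t : ι × ℤ × ℤ) : SV ι → SV ι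
  | [] => [t]
  | s :: l => if s.2.1 = t.2.1 ∧ s.1 = t.1 then
      (if s.2.2 + t.2.2 = 0 then l else (s.1, s.2.1, s.2.2 + t.2.2) :: l) else s :: ins t l

def nrm [DecidableEq ι] (l : SV ι) : SV ι := l.foldr ins []

def tens (l : SV ι) (m : SV κ) : SV (ι × κ) :=
  l.flatMap fun s => m.map fun t => ((s.1, t.1), s.2.1 + t.2.1, s.2.2 * t.2.2)

variable {M N P Q : Type} [AddCommGroup M] [Module ℂ M] [AddCommGroup N] [Module ℂ N]
  [AddCommGroup P] [Module ℂ P] [AddCommGroup Q] [Module ℂ Q]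

noncomputable def ev (x : ℂ) (b : ι → M) (l : SV ι) : M :=
  (l.map fun t => ((t.2.2 : ℂ) * x ^ t.2.1) • b t.1).sum

variable {x : ℂ} {b : ι → M} {b' : κ → N} {b'' : ρ → P} {b''' : σ → Q}

@[simp] theorem ev_nil : ev x b [] = 0 := rfl

@[simp] theorem ev_cons (t : ι × ℤ × ℤ) (l : SV ι) :
    ev x b (t :: l) = ((t.2.2 : ℂ) * x ^ t.2.1) • b t.1 + ev x b l := by simp [ev]

theorem ev_append (l m : SV ι) : ev x b (l ++ m) = ev x b l + ev x b m := by simp [ev]

theorem ev_smulT (hx : x ≠ 0) (e c : ℤ) (l : SV ι) :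
    ev x b (smulT e c l) = ((c : ℂ) * x ^ e) • ev x b l := by
  induction l with
  | nil => simp [smulT]
  | cons t l ih =>
    have : smulT e c (t :: l) = (t.1, e + t.2.1, c * t.2.2) :: smulT e c l := rfl
    rw [this, ev_cons, ev_cons, ih, smul_add, smul_smul, zpow_add₀ hx]
    congr 2
    push_cast
    ring

theorem ev_ins [DecidableEq ι] (t : ι × ℤ × ℤ) (l : SV ι) :
    ev x b (ins t l) = ev x b (t :: l) := by
  induction l with
  | nil => rfl
  | cons s l ih =>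
    rw [ins]
    split_ifs with h1 h2
    · rw [ev_cons, ev_cons, ← add_assoc, h1.1, h1.2, ← add_smul, ← add_mul]
      have : (t.2.2 : ℂ) + s.2.2 = 0 := by rw [add_comm]; exact_mod_cast h2
      simp [this]
    · rw [ev_cons, ev_cons, ev_cons, ← add_assoc, h1.1, h1.2, ← add_smul, ← add_mul]
      congr 3
      push_cast
      ring
    · rw [ev_cons, ih, ev_cons, ev_cons, ev_cons]
      abel

theorem ev_nrm [DecidableEq ι] (l : SV ι) : ev x b (nrm l) = ev x b l := by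
  induction l with
  | nil => rfl
  | cons t l ih =>
    have : nrm (t :: l) = ins t (nrm l) := rfl
    rw [this, ev_ins, ev_cons, ev_cons, ih]

theorem ev_eq_zero [DecidableEq ι] {l : SV ι} (h : (nrm l).isEmpty = true) : ev x b l = 0 := by
  rw [← ev_nrm, List.isEmpty_iff.mp h, ev_nil]

theorem ev_eq (hx : x ≠ 0) [DecidableEq ι] {l m : SV ι}
    (h : (nrm (l ++ smulT 0 (-1) m)).isEmpty = true) : ev x b l = ev x b m := by
  have := ev_eq_zero (x := x) (b := b) h
  rw [ev_append, ev_smulT hx] at this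
  simp only [Int.cast_neg, Int.cast_one, zpow_zero, mul_one, neg_smul, one_smul] at this
  exact add_neg_eq_zero.mp this

theorem ev_tens (hx : x ≠ 0) (l : SV ι) (m : SV κ) :
    ev x (fun k : ι × κ => b k.1 ⊗ₜ[ℂ] b' k.2) (tens l m) = ev x b l ⊗ₜ[ℂ] ev x b' m := by
  induction l with
  | nil => simp [tens]
  | cons s l ih =>
    have : tens (s :: l) m =
        (m.map fun t => ((s.1, t.1), s.2.1 + t.2.1, s.2.2 * t.2.2)) ++ tens l m := rfl
    rw [this, ev_append, ih, ev_cons, TensorProduct.add_tmul]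
    congr 1
    clear this ih
    induction m with
    | nil => simp
    | cons t m ih =>
      rw [List.map_cons, ev_cons, ev_cons, ih, TensorProduct.tmul_add, TensorProduct.smul_tmul_smul,
        zpow_add₀ hx]
      congr 2
      push_cast
      ring

/-- The table `T` represents the linear map `A`. -/
def Rep (x : ℂ) (b : ι → M) (b' : κ → N) (A : M →ₗ[ℂ] N) (T : ι → SV κ) : Prop :=
  ∀ i, A (b i) = ev x b' (T i)

theorem Rep.apply (hx : x ≠ 0) {A : M →ₗ[ℂ] N} {T : ι → SV κ} (h : Rep x b b' A T) (l : SV ι) :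
    A (ev x b l) = ev x b' (app T l) := by
  induction l with
  | nil => simp [app]
  | cons t l ih =>
    have : app T (t :: l) = smulT t.2.1 t.2.2 (T t.1) ++ app T l := rfl
    rw [this, ev_append, ev_cons, map_add, ih, ev_smulT hx, map_smul, h]

theorem Rep.one : Rep x b b (1 : Module.End ℂ M) fun i => [(i, 0, 1)] := fun i => by simp

theorem Rep.mul [DecidableEq ι] (hx : x ≠ 0) {A B : Module.End ℂ M} {T U : ι → SV ι}
    (h : Rep x b b A T) (h' : Rep x b b B U) : Rep x b b (A * B) fun i => nrm (app T (U i)) :=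
  fun i => by rw [Module.End.mul_apply, h', h.apply hx, ev_nrm]

theorem Rep.add {A B : M →ₗ[ℂ] N} {T U : ι → SV κ} (h : Rep x b b' A T) (h' : Rep x b b' B U) :
    Rep x b b' (A + B) fun i => T i ++ U i :=
  fun i => by rw [LinearMap.add_apply, h, h', ev_append]

theorem Rep.smul (hx : x ≠ 0) {A : M →ₗ[ℂ] N} {T : ι → SV κ} (e c : ℤ) (h : Rep x b b' A T) :
    Rep x b b' (((c : ℂ) * x ^ e) • A) fun i => smulT e c (T i) :=
  fun i => by rw [LinearMap.smul_apply, h, ev_smulT hx]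

theorem Rep.congr {A B : M →ₗ[ℂ] N} {T : ι → SV κ} (h : Rep x b b' A T) (e : B = A) :
    Rep x b b' B T := e ▸ h

theorem Rep.sub (hx : x ≠ 0) {A B : M →ₗ[ℂ] N} {T U : ι → SV κ} (h : Rep x b b' A T)
    (h' : Rep x b b' B U) : Rep x b b' (A - B) fun i => T i ++ smulT 0 (-1) (U i) :=
  (h.add (h'.smul hx 0 (-1))).congr (by simp [sub_eq_add_neg])

theorem Rep.smul_zpow (hx : x ≠ 0) {A : M →ₗ[ℂ] N} {T : ι → SV κ} (e : ℤ) (h : Rep x b b' A T) :
    Rep x b b' (x ^ e • A) fun i => smulT e 1 (T i) :=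
  (h.smul hx e 1).congr (by simp)

theorem Rep.smul_x (hx : x ≠ 0) {A : M →ₗ[ℂ] N} {T : ι → SV κ} (h : Rep x b b' A T) :
    Rep x b b' (x • A) fun i => smulT 1 1 (T i) :=
  (h.smul hx 1 1).congr (by simp)

theorem Rep.smul_inv (hx : x ≠ 0) {A : M →ₗ[ℂ] N} {T : ι → SV κ} (h : Rep x b b' A T) :
    Rep x b b' (x⁻¹ • A) fun i => smulT (-1) 1 (T i) :=
  (h.smul hx (-1) 1).congr (by simp)

theorem Rep.smul_two (hx : x ≠ 0) {A : M →ₗ[ℂ] N} {T : ι → SV κ} (h : Rep x b b' A T) :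
    Rep x b b' ((x + x⁻¹) • A) fun i => smulT 1 1 (T i) ++ smulT (-1) 1 (T i) :=
  ((h.smul_x hx).add (h.smul_inv hx)).congr (add_smul _ _ _)

theorem Rep.smul_dif (hx : x ≠ 0) {A : M →ₗ[ℂ] N} {T : ι → SV κ} (h : Rep x b b' A T) :
    Rep x b b' ((x - x⁻¹) • A) fun i => smulT 1 1 (T i) ++ smulT (-1) (-1) (T i) :=
  ((h.smul_x hx).add (h.smul hx (-1) (-1))).congr (by simp [sub_eq_add_neg, add_smul])

theorem Rep.map (hx : x ≠ 0) {A : M →ₗ[ℂ] N} {B : P →ₗ[ℂ] Q} {T : ι → SV κ} {U : ρ → SV σ}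
    (h : Rep x b b' A T) (h' : Rep x b'' b''' B U) :
    Rep x (fun k : ι × ρ => b k.1 ⊗ₜ[ℂ] b'' k.2) (fun k : κ × σ => b' k.1 ⊗ₜ[ℂ] b''' k.2)
      (TensorProduct.map A B) fun k => tens (T k.1) (U k.2) :=
  fun k => by rw [TensorProduct.map_tmul, h, h', ev_tens hx]

theorem Rep.eq (hx : x ≠ 0) [DecidableEq κ] (B : Module.Basis ι ℂ M) (hB : ∀ i, B i = b i)
    {A A' : M →ₗ[ℂ] N} {T U : ι → SV κ} (h : Rep x b b' A T) (h' : Rep x b b' A' U)
    (hd : ∀ i, (nrm (T i ++ smulT 0 (-1) (U i))).isEmpty = true) : A = A' :=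
  B.ext fun i => by rw [hB, h, h', ev_eq hx (hd i)]

theorem Rep.eq_zero [DecidableEq κ] (B : Module.Basis ι ℂ M) (hB : ∀ i, B i = b i)
    {A : M →ₗ[ℂ] N} {T : ι → SV κ} (h : Rep x b b' A T)
    (hd : ∀ i, (nrm (T i)).isEmpty = true) : A = 0 :=
  B.ext fun i => by rw [hB, h, ev_eq_zero (hd i), LinearMap.zero_apply]

theorem Rep.retab (hx : x ≠ 0) [DecidableEq κ] {A : M →ₗ[ℂ] N} {T : ι → SV κ} (U : ι → SV κ)
    (h : Rep x b b' A T) (hd : ∀ i, (nrm (T i ++ smulT 0 (-1) (U i))).isEmpty = true) :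
    Rep x b b' A U := fun i => by rw [h, ev_eq hx (hd i)]

theorem ev_flatMap_mem {α : Type} (S : Submodule ℂ M) (L : List α) (g : α → SV ι)
    (h : ∀ a, ev x b (g a) ∈ S) : ev x b (L.flatMap g) ∈ S := by
  induction L with
  | nil => simp
  | cons a L ih => rw [List.flatMap_cons, ev_append]; exact S.add_mem (h a) ih

end

end Pool.Agent.H913Z.QCube
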