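import Mathlib
import Pool.Agent.H913Z.QCubeRefl

set_option autoImplicit false

namespace Pool.Agent.H913Z.QCube

def tE0 (i : Fin 8) : SV (Fin 8) :=
  ([[], [(0, 0, 1)], [], [(2, -1, 1), (2, 1, 1)], [(2, 0, 1)], [(3, 0, 1)], [], [(6, 0, 1)]] : List (SV (Fin 8))).getD i.val []

def tE1 (i : Fin 8) : SV (Fin 8) :=
  ([[], [], [(0, 0, 1)], [(1, 0, 1)], [(1, -1, 1), (1, 1, 1)], [], [(4, 0, 1)], [(5, 0, 1)]] : List (SV (Fin 8))).getD i.val []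

def tF0 (i : Fin 8) : SV (Fin 8) :=
  ([[(1, 0, 1)], [], [(3, 0, 1)], [(5, -1, 1), (5, 1, 1)], [(5, 0, 1)], [], [(7, 0, 1)], []] : List (SV (Fin 8))).getD i.val []

def tF1 (i : Fin 8) : SV (Fin 8) :=
  ([[(2, 0, 1)], [(4, 0, 1)], [], [(6, 0, 1)], [(6, -1, 1), (6, 1, 1)], [(7, 0, 1)], [], []] : List (SV (Fin 8))).getD i.val []

def tD0 (i : Fin 8) : SV (Fin 8) :=
  ([[], [], [], [], [], [(2, 0, 1)], [], []] : List (SV (Fin 8))).getD i.val []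

def tD1 (i : Fin 8) : SV (Fin 8) :=
  ([[], [], [], [], [], [], [(1, 0, 1)], []] : List (SV (Fin 8))).getD i.val []

def tD2 (i : Fin 8) : SV (Fin 8) :=
  ([[], [], [], [], [], [], [], [(0, -1, -1)]] : List (SV (Fin 8))).getD i.val []

def tR (k : Fin 8 × Fin 8) : SV (Fin 8 × Fin 8) :=
  ([[((0, 0), 2, 1)],
   [((1, 0), 1, 1)],
   [((2, 0), 1, 1)],
   [((3, 0), 0, 1)],
   [((4, 0), 0, 1)],
   [((5, 0), -1, 1)],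
   [((6, 0), -1, 1)],
   [((7, 0), -2, 1)],
   [((0, 1), 1, 1), ((1, 0), 0, -1), ((1, 0), 2, 1)],
   [((1, 1), 2, 1)],
   [((2, 1), -1, 1), ((3, 0), -1, -1), ((3, 0), 1, 1)],
   [((3, 1), 0, 1), ((5, 0), -3, -1), ((5, 0), 1, 1)],
   [((4, 1), 0, 1), ((5, 0), -2, -1), ((5, 0), 0, 1)],
   [((5, 1), 1, 1)],
   [((6, 1), -2, 1), ((7, 0), -3, -1), ((7, 0), -1, 1)],
   [((7, 1), -1, 1)],
   [((0, 2), 1, 1), ((2, 0), 0, -1), ((2, 0), 2, 1)],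
   [((1, 2), -1, 1), ((4, 0), -1, -1), ((4, 0), 1, 1)],
   [((2, 2), 2, 1)],
   [((3, 2), 0, 1), ((6, 0), -2, -1), ((6, 0), 0, 1)],
   [((4, 2), 0, 1), ((6, 0), -3, -1), ((6, 0), 1, 1)],
   [((5, 2), -2, 1), ((7, 0), -3, -1), ((7, 0), -1, 1)],
   [((6, 2), 1, 1)],
   [((7, 2), -1, 1)],
   [((0, 3), 0, 1), ((1, 2), -3, -1), ((1, 2), 1, 1), ((2, 1), -2, -1), ((2, 1), 0, 1), ((3, 0), 0, -1), ((3, 0), 2, 1), ((4, 0), -3, 1), ((4, 0), -1, -1)],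
   [((1, 3), 0, 1), ((4, 1), -1, -1), ((4, 1), 1, 1), ((5, 0), -1, -1), ((5, 0), 1, 1)],
   [((2, 3), 0, 1), ((3, 2), -2, -1), ((3, 2), 2, 1), ((6, 0), -4, 1), ((6, 0), -2, -1)],
   [((3, 3), 0, 1), ((5, 2), -5, -1), ((5, 2), -3, -1), ((5, 2), -1, 1), ((5, 2), 1, 1), ((6, 1), -3, -1), ((6, 1), -1, 1), ((7, 0), -6, 1), ((7, 0), -2, -2), ((7, 0), 0, 1)],
   [((4, 3), 0, 1), ((5, 2), -4, -1), ((5, 2), 0, 1), ((6, 1), -4, -1), ((6, 1), 0, 1), ((7, 0), -5, 1), ((7, 0), -3, -2), ((7, 0), 1, 1)],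
   [((5, 3), 0, 1), ((7, 1), -2, -1), ((7, 1), 0, 1)],
   [((6, 3), 0, 1), ((7, 2), -3, -1), ((7, 2), 1, 1)],
   [((7, 3), 0, 1)],
   [((0, 4), 0, 1), ((1, 2), -2, -1), ((1, 2), 0, 1), ((2, 1), -3, -1), ((2, 1), 1, 1), ((3, 0), -3, 1), ((3, 0), -1, -1), ((4, 0), 0, -1), ((4, 0), 2, 1)],
   [((1, 4), 0, 1), ((4, 1), -2, -1), ((4, 1), 2, 1), ((5, 0), -4, 1), ((5, 0), -2, -1)],
   [((2, 4), 0, 1), ((3, 2), -1, -1), ((3, 2), 1, 1), ((6, 0), -1, -1), ((6, 0), 1, 1)],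
   [((3, 4), 0, 1), ((5, 2), -4, -1), ((5, 2), 0, 1), ((6, 1), -4, -1), ((6, 1), 0, 1), ((7, 0), -5, 1), ((7, 0), -3, -2), ((7, 0), 1, 1)],
   [((4, 4), 0, 1), ((5, 2), -3, -1), ((5, 2), -1, 1), ((6, 1), -5, -1), ((6, 1), -3, -1), ((6, 1), -1, 1), ((6, 1), 1, 1), ((7, 0), -6, 1), ((7, 0), -2, -2), ((7, 0), 0, 1)],
   [((5, 4), 0, 1), ((7, 1), -3, -1), ((7, 1), 1, 1)],
   [((6, 4), 0, 1), ((7, 2), -2, -1), ((7, 2), 0, 1)],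
   [((7, 4), 0, 1)],
   [((0, 5), -1, 1), ((1, 3), -1, -1), ((1, 3), 1, 1), ((3, 1), -1, -1), ((3, 1), 1, 1), ((4, 1), -2, 1), ((4, 1), 0, -1), ((5, 0), -2, 1), ((5, 0), 0, -2), ((5, 0), 2, 1)],
   [((1, 5), 1, 1), ((5, 1), 0, -1), ((5, 1), 2, 1)],
   [((2, 5), -2, 1), ((3, 3), -1, -1), ((3, 3), 1, 1), ((5, 2), -4, 1), ((5, 2), -2, -1), ((5, 2), 0, -1), ((5, 2), 2, 1), ((6, 1), -4, 1), ((6, 1), -2, -1), ((7, 0), -5, -1), ((7, 0), -3, 2), ((7, 0), -1, -1)],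
   [((3, 5), 0, 1), ((5, 3), -2, -1), ((5, 3), 2, 1), ((7, 1), -4, 1), ((7, 1), -2, -1)],
   [((4, 5), 0, 1), ((5, 3), -1, -1), ((5, 3), 1, 1), ((7, 1), -1, -1), ((7, 1), 1, 1)],
   [((5, 5), 2, 1)],
   [((6, 5), -1, 1), ((7, 3), -1, -1), ((7, 3), 1, 1)],
   [((7, 5), 1, 1)],
   [((0, 6), -1, 1), ((2, 4), -1, -1), ((2, 4), 1, 1), ((3, 2), -2, 1), ((3, 2), 0, -1), ((4, 2), -1, -1), ((4, 2), 1, 1), ((6, 0), -2, 1), ((6, 0), 0, -2), ((6, 0), 2, 1)],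
   [((1, 6), -2, 1), ((4, 4), -1, -1), ((4, 4), 1, 1), ((5, 2), -4, 1), ((5, 2), -2, -1), ((6, 1), -4, 1), ((6, 1), -2, -1), ((6, 1), 0, -1), ((6, 1), 2, 1), ((7, 0), -5, -1), ((7, 0), -3, 2), ((7, 0), -1, -1)],
   [((2, 6), 1, 1), ((6, 2), 0, -1), ((6, 2), 2, 1)],
   [((3, 6), 0, 1), ((6, 4), -1, -1), ((6, 4), 1, 1), ((7, 2), -1, -1), ((7, 2), 1, 1)],
   [((4, 6), 0, 1), ((6, 4), -2, -1), ((6, 4), 2, 1), ((7, 2), -4, 1), ((7, 2), -2, -1)],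
   [((5, 6), -1, 1), ((7, 4), -1, -1), ((7, 4), 1, 1)],
   [((6, 6), 2, 1)],
   [((7, 6), 1, 1)],
   [((0, 7), -2, 1), ((1, 6), -3, -1), ((1, 6), -1, 1), ((2, 5), -3, -1), ((2, 5), -1, 1), ((3, 3), -2, 1), ((3, 3), 0, -1), ((3, 4), -1, -1), ((3, 4), 1, 1), ((4, 3), -1, -1), ((4, 3), 1, 1), ((4, 4), -2, 1), ((4, 4), 0, -1), ((5, 2), -5, -1), ((5, 2), -3, 2), ((5, 2), -1, -1), ((6, 1), -5, -1), ((6, 1), -3, 2), ((6, 1), -1, -1), ((7, 0), -6, 1), ((7, 0), -4, -2), ((7, 0), -2, 2), ((7, 0), 0, -2), ((7, 0), 2, 1)],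
   [((1, 7), -1, 1), ((4, 5), -1, -1), ((4, 5), 1, 1), ((5, 3), -2, 1), ((5, 3), 0, -1), ((5, 4), -1, -1), ((5, 4), 1, 1), ((7, 1), -2, 1), ((7, 1), 0, -2), ((7, 1), 2, 1)],
   [((2, 7), -1, 1), ((3, 6), -1, -1), ((3, 6), 1, 1), ((6, 3), -1, -1), ((6, 3), 1, 1), ((6, 4), -2, 1), ((6, 4), 0, -1), ((7, 2), -2, 1), ((7, 2), 0, -2), ((7, 2), 2, 1)],
   [((3, 7), 0, 1), ((5, 6), -3, -1), ((5, 6), 1, 1), ((6, 5), -2, -1), ((6, 5), 0, 1), ((7, 3), 0, -1), ((7, 3), 2, 1), ((7, 4), -3, 1), ((7, 4), -1, -1)],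
   [((4, 7), 0, 1), ((5, 6), -2, -1), ((5, 6), 0, 1), ((6, 5), -3, -1), ((6, 5), 1, 1), ((7, 3), -3, 1), ((7, 3), -1, -1), ((7, 4), 0, -1), ((7, 4), 2, 1)],
   [((5, 7), 1, 1), ((7, 5), 0, -1), ((7, 5), 2, 1)],
   [((6, 7), 1, 1), ((7, 6), 0, -1), ((7, 6), 2, 1)],
   [((7, 7), 2, 1)]] : List (SV (Fin 8 × Fin 8))).getD (8 * k.1.val + k.2.val) []

def tP : SV ((Fin 8 × Fin 8) × Fin 8) :=
  [(((0, 3), 7), 15, -1),
   (((0, 3), 7), 16, -1),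
   (((0, 3), 7), 17, -1),
   (((0, 4), 7), 15, -1),
   (((0, 4), 7), 16, -1),
   (((0, 4), 7), 17, -1),
   (((0, 5), 6), 12, 1),
   (((0, 5), 6), 13, 2),
   (((0, 5), 6), 14, 3),
   (((0, 5), 6), 15, 2),
   (((0, 5), 6), 16, 1),
   (((0, 6), 5), 12, 1),
   (((0, 6), 5), 13, 2),
   (((0, 6), 5), 14, 3),
   (((0, 6), 5), 15, 2),
   (((0, 6), 5), 16, 1),
   (((0, 7), 3), 12, -1),
   (((0, 7), 3), 13, -1),
   (((0, 7), 3), 14, -1),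
   (((0, 7), 4), 12, -1),
   (((0, 7), 4), 13, -1),
   (((0, 7), 4), 14, -1),
   (((1, 2), 7), 12, 1),
   (((1, 2), 7), 13, 2),
   (((1, 2), 7), 14, 3),
   (((1, 2), 7), 15, 2),
   (((1, 2), 7), 16, 1),
   (((1, 3), 6), 12, -1),
   (((1, 3), 6), 13, -2),
   (((1, 3), 6), 14, -2),
   (((1, 3), 6), 15, -1),
   (((1, 4), 6), 14, 1),
   (((1, 4), 6), 15, 1),
   (((1, 4), 6), 16, 1),
   (((1, 6), 3), 12, -1),
   (((1, 6), 3), 13, -2),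
   (((1, 6), 3), 14, -2),
   (((1, 6), 3), 15, -1),
   (((1, 6), 4), 11, 1),
   (((1, 6), 4), 12, 1),
   (((1, 6), 4), 13, 1),
   (((1, 7), 2), 10, 1),
   (((1, 7), 2), 11, 2),
   (((1, 7), 2), 12, 3),
   (((1, 7), 2), 13, 2),
   (((1, 7), 2), 14, 1),
   (((2, 1), 7), 12, 1),
   (((2, 1), 7), 13, 2),
   (((2, 1), 7), 14, 3),
   (((2, 1), 7), 15, 2),
   (((2, 1), 7), 16, 1),
   (((2, 3), 5), 14, 1),
   (((2, 3), 5), 15, 1),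
   (((2, 3), 5), 16, 1),
   (((2, 4), 5), 12, -1),
   (((2, 4), 5), 13, -2),
   (((2, 4), 5), 14, -2),
   (((2, 4), 5), 15, -1),
   (((2, 5), 3), 11, 1),
   (((2, 5), 3), 12, 1),
   (((2, 5), 3), 13, 1),
   (((2, 5), 4), 12, -1),
   (((2, 5), 4), 13, -2),
   (((2, 5), 4), 14, -2),
   (((2, 5), 4), 15, -1),
   (((2, 7), 1), 10, 1),
   (((2, 7), 1), 11, 2),
   (((2, 7), 1), 12, 3),
   (((2, 7), 1), 13, 2),
   (((2, 7), 1), 14, 1),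
   (((3, 0), 7), 12, -1),
   (((3, 0), 7), 13, -1),
   (((3, 0), 7), 14, -1),
   (((3, 1), 6), 12, -1),
   (((3, 1), 6), 13, -2),
   (((3, 1), 6), 14, -2),
   (((3, 1), 6), 15, -1),
   (((3, 2), 5), 11, 1),
   (((3, 2), 5), 12, 1),
   (((3, 2), 5), 13, 1),
   (((3, 3), 3), 12, -1),
   (((3, 3), 3), 13, -1),
   (((3, 3), 3), 14, -1),
   (((3, 3), 3), 15, -1),
   (((3, 3), 4), 13, 1),
   (((3, 3), 4), 14, 1),
   (((3, 4), 3), 13, 1),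
   (((3, 4), 3), 14, 1),
   (((3, 4), 4), 13, 1),
   (((3, 4), 4), 14, 1),
   (((3, 5), 2), 12, 1),
   (((3, 5), 2), 13, 1),
   (((3, 5), 2), 14, 1),
   (((3, 6), 1), 10, -1),
   (((3, 6), 1), 11, -2),
   (((3, 6), 1), 12, -2),
   (((3, 6), 1), 13, -1),
   (((3, 7), 0), 11, -1),
   (((3, 7), 0), 12, -1),
   (((3, 7), 0), 13, -1),
   (((4, 0), 7), 12, -1),
   (((4, 0), 7), 13, -1),
   (((4, 0), 7), 14, -1),
   (((4, 1), 6), 11, 1),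
   (((4, 1), 6), 12, 1),
   (((4, 1), 6), 13, 1),
   (((4, 2), 5), 12, -1),
   (((4, 2), 5), 13, -2),
   (((4, 2), 5), 14, -2),
   (((4, 2), 5), 15, -1),
   (((4, 3), 3), 13, 1),
   (((4, 3), 3), 14, 1),
   (((4, 3), 4), 13, 1),
   (((4, 3), 4), 14, 1),
   (((4, 4), 3), 13, 1),
   (((4, 4), 3), 14, 1),
   (((4, 4), 4), 12, -1),
   (((4, 4), 4), 13, -1),
   (((4, 4), 4), 14, -1),
   (((4, 4), 4), 15, -1),
   (((4, 5), 2), 10, -1),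
   (((4, 5), 2), 11, -2),
   (((4, 5), 2), 12, -2),
   (((4, 5), 2), 13, -1),
   (((4, 6), 1), 12, 1),
   (((4, 6), 1), 13, 1),
   (((4, 6), 1), 14, 1),
   (((4, 7), 0), 11, -1),
   (((4, 7), 0), 12, -1),
   (((4, 7), 0), 13, -1),
   (((5, 0), 6), 10, 1),
   (((5, 0), 6), 11, 2),
   (((5, 0), 6), 12, 3),
   (((5, 0), 6), 13, 2),
   (((5, 0), 6), 14, 1),
   (((5, 2), 3), 12, 1),
   (((5, 2), 3), 13, 1),
   (((5, 2), 3), 14, 1),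
   (((5, 2), 4), 10, -1),
   (((5, 2), 4), 11, -2),
   (((5, 2), 4), 12, -2),
   (((5, 2), 4), 13, -1),
   (((5, 3), 2), 9, 1),
   (((5, 3), 2), 10, 1),
   (((5, 3), 2), 11, 1),
   (((5, 4), 2), 10, -1),
   (((5, 4), 2), 11, -2),
   (((5, 4), 2), 12, -2),
   (((5, 4), 2), 13, -1),
   (((5, 6), 0), 8, 1),
   (((5, 6), 0), 9, 2),
   (((5, 6), 0), 10, 3),
   (((5, 6), 0), 11, 2),
   (((5, 6), 0), 12, 1),
   (((6, 0), 5), 10, 1),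
   (((6, 0), 5), 11, 2),
   (((6, 0), 5), 12, 3),
   (((6, 0), 5), 13, 2),
   (((6, 0), 5), 14, 1),
   (((6, 1), 3), 10, -1),
   (((6, 1), 3), 11, -2),
   (((6, 1), 3), 12, -2),
   (((6, 1), 3), 13, -1),
   (((6, 1), 4), 12, 1),
   (((6, 1), 4), 13, 1),
   (((6, 1), 4), 14, 1),
   (((6, 3), 1), 10, -1),
   (((6, 3), 1), 11, -2),
   (((6, 3), 1), 12, -2),
   (((6, 3), 1), 13, -1),
   (((6, 4), 1), 9, 1),
   (((6, 4), 1), 10, 1),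
   (((6, 4), 1), 11, 1),
   (((6, 5), 0), 8, 1),
   (((6, 5), 0), 9, 2),
   (((6, 5), 0), 10, 3),
   (((6, 5), 0), 11, 2),
   (((6, 5), 0), 12, 1),
   (((7, 0), 3), 11, -1),
   (((7, 0), 3), 12, -1),
   (((7, 0), 3), 13, -1),
   (((7, 0), 4), 11, -1),
   (((7, 0), 4), 12, -1),
   (((7, 0), 4), 13, -1),
   (((7, 1), 2), 8, 1),
   (((7, 1), 2), 9, 2),
   (((7, 1), 2), 10, 3),
   (((7, 1), 2), 11, 2),
   (((7, 1), 2), 12, 1),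
   (((7, 2), 1), 8, 1),
   (((7, 2), 1), 9, 2),
   (((7, 2), 1), 10, 3),
   (((7, 2), 1), 11, 2),
   (((7, 2), 1), 12, 1),
   (((7, 3), 0), 8, -1),
   (((7, 3), 0), 9, -1),
   (((7, 3), 0), 10, -1),
   (((7, 4), 0), 8, -1),
   (((7, 4), 0), 9, -1),
   (((7, 4), 0), 10, -1)]

def tM : SV ((Fin 8 × Fin 8) × Fin 8) :=
  [(((0, 3), 7), 15, 1),
   (((0, 3), 7), 16, -1),
   (((0, 3), 7), 17, 1),
   (((0, 4), 7), 15, -1),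
   (((0, 4), 7), 16, 1),
   (((0, 4), 7), 17, -1),
   (((0, 5), 6), 12, -1),
   (((0, 5), 6), 13, 2),
   (((0, 5), 6), 14, -3),
   (((0, 5), 6), 15, 2),
   (((0, 5), 6), 16, -1),
   (((0, 6), 5), 12, 1),
   (((0, 6), 5), 13, -2),
   (((0, 6), 5), 14, 3),
   (((0, 6), 5), 15, -2),
   (((0, 6), 5), 16, 1),
   (((0, 7), 3), 12, -1),
   (((0, 7), 3), 13, 1),
   (((0, 7), 3), 14, -1),
   (((0, 7), 4), 12, 1),
   (((0, 7), 4), 13, -1),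
   (((0, 7), 4), 14, 1),
   (((1, 2), 7), 12, -1),
   (((1, 2), 7), 13, 2),
   (((1, 2), 7), 14, -3),
   (((1, 2), 7), 15, 2),
   (((1, 2), 7), 16, -1),
   (((1, 3), 6), 12, 1),
   (((1, 3), 6), 13, -2),
   (((1, 3), 6), 14, 2),
   (((1, 3), 6), 15, -1),
   (((1, 4), 6), 14, 1),
   (((1, 4), 6), 15, -1),
   (((1, 4), 6), 16, 1),
   (((1, 6), 3), 12, 1),
   (((1, 6), 3), 13, -2),
   (((1, 6), 3), 14, 2),
   (((1, 6), 3), 15, -1),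
   (((1, 6), 4), 11, -1),
   (((1, 6), 4), 12, 1),
   (((1, 6), 4), 13, -1),
   (((1, 7), 2), 10, 1),
   (((1, 7), 2), 11, -2),
   (((1, 7), 2), 12, 3),
   (((1, 7), 2), 13, -2),
   (((1, 7), 2), 14, 1),
   (((2, 1), 7), 12, 1),
   (((2, 1), 7), 13, -2),
   (((2, 1), 7), 14, 3),
   (((2, 1), 7), 15, -2),
   (((2, 1), 7), 16, 1),
   (((2, 3), 5), 14, -1),
   (((2, 3), 5), 15, 1),
   (((2, 3), 5), 16, -1),
   (((2, 4), 5), 12, -1),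
   (((2, 4), 5), 13, 2),
   (((2, 4), 5), 14, -2),
   (((2, 4), 5), 15, 1),
   (((2, 5), 3), 11, 1),
   (((2, 5), 3), 12, -1),
   (((2, 5), 3), 13, 1),
   (((2, 5), 4), 12, -1),
   (((2, 5), 4), 13, 2),
   (((2, 5), 4), 14, -2),
   (((2, 5), 4), 15, 1),
   (((2, 7), 1), 10, -1),
   (((2, 7), 1), 11, 2),
   (((2, 7), 1), 12, -3),
   (((2, 7), 1), 13, 2),
   (((2, 7), 1), 14, -1),
   (((3, 0), 7), 12, -1),
   (((3, 0), 7), 13, 1),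
   (((3, 0), 7), 14, -1),
   (((3, 1), 6), 12, 1),
   (((3, 1), 6), 13, -2),
   (((3, 1), 6), 14, 2),
   (((3, 1), 6), 15, -1),
   (((3, 2), 5), 11, 1),
   (((3, 2), 5), 12, -1),
   (((3, 2), 5), 13, 1),
   (((3, 3), 3), 12, -1),
   (((3, 3), 3), 13, 1),
   (((3, 3), 3), 14, -1),
   (((3, 3), 3), 15, 1),
   (((3, 3), 4), 13, 1),
   (((3, 3), 4), 14, -1),
   (((3, 4), 3), 13, 1),
   (((3, 4), 3), 14, -1),
   (((3, 4), 4), 13, -1),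
   (((3, 4), 4), 14, 1),
   (((3, 5), 2), 12, -1),
   (((3, 5), 2), 13, 1),
   (((3, 5), 2), 14, -1),
   (((3, 6), 1), 10, 1),
   (((3, 6), 1), 11, -2),
   (((3, 6), 1), 12, 2),
   (((3, 6), 1), 13, -1),
   (((3, 7), 0), 11, 1),
   (((3, 7), 0), 12, -1),
   (((3, 7), 0), 13, 1),
   (((4, 0), 7), 12, 1),
   (((4, 0), 7), 13, -1),
   (((4, 0), 7), 14, 1),
   (((4, 1), 6), 11, -1),
   (((4, 1), 6), 12, 1),
   (((4, 1), 6), 13, -1),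
   (((4, 2), 5), 12, -1),
   (((4, 2), 5), 13, 2),
   (((4, 2), 5), 14, -2),
   (((4, 2), 5), 15, 1),
   (((4, 3), 3), 13, 1),
   (((4, 3), 3), 14, -1),
   (((4, 3), 4), 13, -1),
   (((4, 3), 4), 14, 1),
   (((4, 4), 3), 13, -1),
   (((4, 4), 3), 14, 1),
   (((4, 4), 4), 12, 1),
   (((4, 4), 4), 13, -1),
   (((4, 4), 4), 14, 1),
   (((4, 4), 4), 15, -1),
   (((4, 5), 2), 10, -1),
   (((4, 5), 2), 11, 2),
   (((4, 5), 2), 12, -2),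
   (((4, 5), 2), 13, 1),
   (((4, 6), 1), 12, 1),
   (((4, 6), 1), 13, -1),
   (((4, 6), 1), 14, 1),
   (((4, 7), 0), 11, -1),
   (((4, 7), 0), 12, 1),
   (((4, 7), 0), 13, -1),
   (((5, 0), 6), 10, 1),
   (((5, 0), 6), 11, -2),
   (((5, 0), 6), 12, 3),
   (((5, 0), 6), 13, -2),
   (((5, 0), 6), 14, 1),
   (((5, 2), 3), 12, -1),
   (((5, 2), 3), 13, 1),
   (((5, 2), 3), 14, -1),
   (((5, 2), 4), 10, -1),
   (((5, 2), 4), 11, 2),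
   (((5, 2), 4), 12, -2),
   (((5, 2), 4), 13, 1),
   (((5, 3), 2), 9, 1),
   (((5, 3), 2), 10, -1),
   (((5, 3), 2), 11, 1),
   (((5, 4), 2), 10, -1),
   (((5, 4), 2), 11, 2),
   (((5, 4), 2), 12, -2),
   (((5, 4), 2), 13, 1),
   (((5, 6), 0), 8, -1),
   (((5, 6), 0), 9, 2),
   (((5, 6), 0), 10, -3),
   (((5, 6), 0), 11, 2),
   (((5, 6), 0), 12, -1),
   (((6, 0), 5), 10, -1),
   (((6, 0), 5), 11, 2),
   (((6, 0), 5), 12, -3),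
   (((6, 0), 5), 13, 2),
   (((6, 0), 5), 14, -1),
   (((6, 1), 3), 10, 1),
   (((6, 1), 3), 11, -2),
   (((6, 1), 3), 12, 2),
   (((6, 1), 3), 13, -1),
   (((6, 1), 4), 12, 1),
   (((6, 1), 4), 13, -1),
   (((6, 1), 4), 14, 1),
   (((6, 3), 1), 10, 1),
   (((6, 3), 1), 11, -2),
   (((6, 3), 1), 12, 2),
   (((6, 3), 1), 13, -1),
   (((6, 4), 1), 9, -1),
   (((6, 4), 1), 10, 1),
   (((6, 4), 1), 11, -1),
   (((6, 5), 0), 8, 1),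
   (((6, 5), 0), 9, -2),
   (((6, 5), 0), 10, 3),
   (((6, 5), 0), 11, -2),
   (((6, 5), 0), 12, 1),
   (((7, 0), 3), 11, 1),
   (((7, 0), 3), 12, -1),
   (((7, 0), 3), 13, 1),
   (((7, 0), 4), 11, -1),
   (((7, 0), 4), 12, 1),
   (((7, 0), 4), 13, -1),
   (((7, 1), 2), 8, -1),
   (((7, 1), 2), 9, 2),
   (((7, 1), 2), 10, -3),
   (((7, 1), 2), 11, 2),
   (((7, 1), 2), 12, -1),
   (((7, 2), 1), 8, 1),
   (((7, 2), 1), 9, -2),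
   (((7, 2), 1), 10, 3),
   (((7, 2), 1), 11, -2),
   (((7, 2), 1), 12, 1),
   (((7, 3), 0), 8, -1),
   (((7, 3), 0), 9, 1),
   (((7, 3), 0), 10, -1),
   (((7, 4), 0), 8, 1),
   (((7, 4), 0), 9, -1),
   (((7, 4), 0), 10, 1)]

end Pool.Agent.H913Z.QCube
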