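import Mathlib

set_option autoImplicit false

open scoped TensorProduct

namespace Pool.Agent.H913Z.QCube

noncomputable section

/-- The Cartan matrix of `sl_3`. -/
def cartan (i j : Fin 2) : ℤ := if i = j then 2 else -1

/-- Elements `E_i, F_i, K_i, K_i⁻¹` of an algebra `A` (below `A = End V`: the operators by which
the generators of `U_q(sl_3)` act on `V`). -/
structure Gens (A : Type) where
  E : Fin 2 → A
  F : Fin 2 → A
  K : Fin 2 → A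
  Ki : Fin 2 → A

section
variable {A : Type} [Ring A] [Algebra ℂ A]

/-- The quantum Serre relation. -/
def Serre (q : ℝ) (a b : A) : Prop :=
  a * a * b - ((q : ℂ) + (q : ℂ)⁻¹) • (a * b * a) + b * a * a = 0

/-- The Drinfeld-Jimbo relations of `U_q(sl_3)`. -/
structure IsModule (q : ℝ) (M : Gens A) : Prop where
  K_Ki : ∀ i, M.K i * M.Ki i = 1
  Ki_K : ∀ i, M.Ki i * M.K i = 1
  K_K : ∀ i j, M.K i * M.K j = M.K j * M.K i
  K_E : ∀ i j, M.K i * M.E j * M.Ki i = (q : ℂ) ^ cartan i j • M.E j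
  K_F : ∀ i j, M.K i * M.F j * M.Ki i = (q : ℂ) ^ (-cartan i j) • M.F j
  E_F_same : ∀ i, M.E i * M.F i - M.F i * M.E i = ((q : ℂ) - (q : ℂ)⁻¹)⁻¹ • (M.K i - M.Ki i)
  E_F_ne : ∀ i j, i ≠ j → M.E i * M.F j = M.F j * M.E i
  serre_E : ∀ i j, i ≠ j → Serre q (M.E i) (M.E j)
  serre_F : ∀ i j, i ≠ j → Serre q (M.F i) (M.F j)

/-- The root vector `E_(α₁+α₂) = E₁E₂ - q⁻¹E₂E₁`. -/
def rootE (q : ℝ) (M : Gens A) : A := M.E 0 * M.E 1 - (q : ℂ)⁻¹ • (M.E 1 * M.E 0)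

/-- The root vector `F_(α₁+α₂) = F₂F₁ - qF₁F₂`. -/
def rootF (q : ℝ) (M : Gens A) : A := M.F 1 * M.F 0 - (q : ℂ) • (M.F 0 * M.F 1)

end

variable {V W : Type} [AddCommGroup V] [Module ℂ V] [AddCommGroup W] [Module ℂ W]

/-- The tensor product `a ⊗ b` of two operators. -/
def otimes (a : Module.End ℂ V) (b : Module.End ℂ W) : Module.End ℂ (V ⊗[ℂ] W) :=
  TensorProduct.map a b

/-- The flip `v ⊗ w ↦ w ⊗ v`. -/
def flipOp (V : Type) [AddCommGroup V] [Module ℂ V] : Module.End ℂ (V ⊗[ℂ] V) :=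
  (TensorProduct.comm ℂ V V).toLinearMap

/-- Tensor product through the coproduct `ΔE = E ⊗ K + 1 ⊗ E`, `ΔF = F ⊗ 1 + K⁻¹ ⊗ F`,
`ΔK = K ⊗ K`. -/
def tensor (M : Gens (Module.End ℂ V)) (N : Gens (Module.End ℂ W)) :
    Gens (Module.End ℂ (V ⊗[ℂ] W)) where
  E i := otimes (M.E i) (N.K i) + otimes 1 (N.E i)
  F i := otimes (M.F i) 1 + otimes (M.Ki i) (N.F i)
  K i := otimes (M.K i) (N.K i)
  Ki i := otimes (M.Ki i) (N.Ki i)

/-- The (type 1) weight space of weight `μ = μ₀ ω₁ + μ₁ ω₂`. -/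
def wtSpace (q : ℝ) (M : Gens (Module.End ℂ V)) (μ : Fin 2 → ℤ) : Submodule ℂ V :=
  ⨅ i, Module.End.eigenspace (M.K i) ((q : ℂ) ^ μ i)

/-- `M` is of type 1, simple, and has a highest weight vector of weight `lam`. -/
def IsSimpleHW (q : ℝ) (M : Gens (Module.End ℂ V)) (lam : Fin 2 → ℤ) : Prop :=
  (⨆ μ, wtSpace q M μ) = ⊤ ∧
  (∀ N : Submodule ℂ V, (∀ i, ∀ v ∈ N, M.E i v ∈ N ∧ M.F i v ∈ N ∧ M.K i v ∈ N ∧ M.Ki i v ∈ N) →
    N = ⊥ ∨ N = ⊤) ∧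
  ∃ v ∈ wtSpace q M lam, v ≠ 0 ∧ ∀ i, M.E i v = 0

/-- The multiplicity of `V(μ)` in a submodule `N`: the dimension of the space of highest weight
vectors of weight `μ` in `N`. -/
def mult (q : ℝ) (M : Gens (Module.End ℂ V)) (N : Submodule ℂ V) (μ : Fin 2 → ℤ) : ℕ :=
  Module.finrank ℂ (N ⊓ wtSpace q M μ ⊓ ⨅ i, LinearMap.ker (M.E i) : Submodule ℂ V)

/-- The invariant form on weights, with `(α, α) = 2` for roots `α`. -/
def form (μ ν : Fin 2 → ℤ) : ℝ :=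
  (2 * μ 0 * ν 0 + μ 0 * ν 1 + μ 1 * ν 0 + 2 * μ 1 * ν 1) / 3

/-- `C` is the Cartan factor of the universal R-matrix: `q ^ (μ, ν)` on `V_μ ⊗ V_ν`. -/
def IsCartanFactor (q : ℝ) (M : Gens (Module.End ℂ V)) (C : Module.End ℂ (V ⊗[ℂ] V)) : Prop :=
  ∀ μ ν, ∀ v ∈ wtSpace q M μ, ∀ w ∈ wtSpace q M ν,
    C (v ⊗ₜ w) = ((q ^ form μ ν : ℝ) : ℂ) • (v ⊗ₜ w)

/-- The quantum integer `[n]_q`. -/
def qint (q : ℝ) (n : ℕ) : ℂ := ((q : ℂ) ^ n - (q : ℂ)⁻¹ ^ n) / ((q : ℂ) - (q : ℂ)⁻¹)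

/-- The root factor `∑ₙ q^(n(n-1)/2) (q - q⁻¹)ⁿ / [n]! · Aⁿ ⊗ Bⁿ` of the universal R-matrix; root
vectors are nilpotent on `V`, so the terms with `n > dim V` vanish. -/
def qexp (q : ℝ) (A B : Module.End ℂ V) : Module.End ℂ (V ⊗[ℂ] V) :=
  ∑ n ∈ Finset.range (Module.finrank ℂ V + 1),
    ((q : ℂ) ^ (n * (n - 1) / 2) * ((q : ℂ) - (q : ℂ)⁻¹) ^ n /
      ∏ k ∈ Finset.range n, qint q (k + 1)) • otimes (A ^ n) (B ^ n)

/-- The braiding `τ ∘ R` on `V ⊗ V`, where `R` is the universal R-matrix of `U_q(sl_3)`: the Cartan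
factor `C` times the root factors of `α₁`, `α₁ + α₂`, `α₂`. -/
def braiding (q : ℝ) (M : Gens (Module.End ℂ V)) (C : Module.End ℂ (V ⊗[ℂ] V)) :
    Module.End ℂ (V ⊗[ℂ] V) :=
  flipOp V * C * qexp q (M.E 0) (M.F 0) * qexp q (rootE q M) (rootF q M) * qexp q (M.E 1) (M.F 1)

/-- `R` commutes with the action of the generators. -/
def Intertwines {A : Type} [Ring A] (M : Gens A) (R : A) : Prop :=
  ∀ i, Commute R (M.E i) ∧ Commute R (M.F i) ∧ Commute R (M.K i)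

/-- Sum of the eigenspaces for positive eigenvalues. -/
def posPart (R : Module.End ℂ V) : Submodule ℂ V :=
  ⨆ (c : ℝ) (_ : 0 < c), R.eigenspace (c : ℂ)

/-- Sum of the eigenspaces for negative eigenvalues. -/
def negPart (R : Module.End ℂ V) : Submodule ℂ V :=
  ⨆ (c : ℝ) (_ : c < 0), R.eigenspace (c : ℂ)

/-- `N ⊗ V` inside `(V ⊗ V) ⊗ V`. -/
def tensLeft (N : Submodule ℂ (V ⊗[ℂ] V)) : Submodule ℂ ((V ⊗[ℂ] V) ⊗[ℂ] V) :=
  Submodule.span ℂ {t | ∃ n ∈ N, ∃ v : V, t = n ⊗ₜ v}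

/-- The identification `V ⊗ (V ⊗ V) → (V ⊗ V) ⊗ V`. -/
def reassocMap (t : V ⊗[ℂ] (V ⊗[ℂ] V)) : (V ⊗[ℂ] V) ⊗[ℂ] V :=
  (TensorProduct.assoc ℂ V V V).invFun t

/-- `V ⊗ N` inside `(V ⊗ V) ⊗ V`. -/
def tensRight (N : Submodule ℂ (V ⊗[ℂ] V)) : Submodule ℂ ((V ⊗[ℂ] V) ⊗[ℂ] V) :=
  Submodule.span ℂ {t | ∃ n ∈ N, ∃ v : V, t = reassocMap (v ⊗ₜ n)}

/-- `(N ⊗ V) ∩ (V ⊗ N)`. -/
def cube (N : Submodule ℂ (V ⊗[ℂ] V)) : Submodule ℂ ((V ⊗[ℂ] V) ⊗[ℂ] V) :=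
  tensLeft N ⊓ tensRight N

/-- Multiplicity of `V(μ)` in `(N ⊗ V) ∩ (V ⊗ N)`. -/
def cubeMult (q : ℝ) (M : Gens (Module.End ℂ V)) (N : Submodule ℂ (V ⊗[ℂ] V))
    (μ : Fin 2 → ℤ) : ℕ :=
  mult q (tensor (tensor M M) M) (cube N) μ

/-- The classical Lie algebra `sl_3(ℂ)`; as a module over itself it is `V(ω₁ + ω₂)`. -/
def sl3 : Type := LieAlgebra.SpecialLinear.sl (Fin 3) ℂ

instance : LieRing sl3 :=
  (inferInstance : LieRing (LieAlgebra.SpecialLinear.sl (Fin 3) ℂ))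

instance : LieAlgebra ℂ sl3 :=
  (inferInstance : LieAlgebra ℂ (LieAlgebra.SpecialLinear.sl (Fin 3) ℂ))

/-- Operators by which the Chevalley generators `e_i, h_i` of `sl_3` act on `V`. -/
structure CGens (V : Type) [AddCommGroup V] [Module ℂ V] where
  e : Fin 2 → Module.End ℂ V
  h : Fin 2 → Module.End ℂ V

/-- Classical tensor product: `x` acts by `x ⊗ 1 + 1 ⊗ x`. -/
def ctensor (M : CGens V) (N : CGens W) : CGens (V ⊗[ℂ] W) where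
  e i := otimes (M.e i) 1 + otimes 1 (N.e i)
  h i := otimes (M.h i) 1 + otimes 1 (N.h i)

theorem chevE_mem (i : Fin 2) :
    Matrix.single i.castSucc i.succ (1 : ℂ) ∈ LieAlgebra.SpecialLinear.sl (Fin 3) ℂ :=
  (LieAlgebra.SpecialLinear.single _ _ (Fin.castSucc_lt_succ (i := i)).ne (1 : ℂ)).2

theorem chevH_mem (i : Fin 2) :
    Matrix.single i.castSucc i.castSucc (1 : ℂ) - Matrix.single i.succ i.succ (1 : ℂ) ∈
      LieAlgebra.SpecialLinear.sl (Fin 3) ℂ :=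
  (LieAlgebra.SpecialLinear.singleSubSingle i.castSucc i.succ (1 : ℂ)).2

/-- Chevalley generators `e_i = E_(i,i+1)`. -/
def chevE (i : Fin 2) : sl3 := ⟨Matrix.single i.castSucc i.succ 1, chevE_mem i⟩

/-- Chevalley generators `h_i = E_(i,i) - E_(i+1,i+1)`. -/
def chevH (i : Fin 2) : sl3 :=
  ⟨Matrix.single i.castSucc i.castSucc 1 - Matrix.single i.succ i.succ 1, chevH_mem i⟩

/-- The adjoint module. -/
def adjoint : CGens sl3 where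
  e i := LieAlgebra.ad ℂ sl3 (chevE i)
  h i := LieAlgebra.ad ℂ sl3 (chevH i)

/-- The multiplicity of the classical `V(μ)` in a submodule `N`: the dimension of the space of
highest weight vectors of weight `μ` in `N`. -/
def cmult (M : CGens V) (N : Submodule ℂ V) (μ : Fin 2 → ℤ) : ℕ :=
  Module.finrank ℂ (N ⊓ (⨅ i, (M.h i).eigenspace (μ i : ℂ)) ⊓
    ⨅ i, LinearMap.ker (M.e i) : Submodule ℂ V)

/-- Multiplicity of `V(μ)` in `S²V ⊗ V` (for `ε = 1`) and in `Λ²V ⊗ V` (for `ε = -1`). -/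
def sqMult (M : CGens V) (ε : ℂ) (μ : Fin 2 → ℤ) : ℕ :=
  cmult (ctensor (ctensor M M) M) (tensLeft ((flipOp V).eigenspace ε)) μ

/-- Multiplicity of `V(μ)` in `S³_low V`. -/
def symLow (M : CGens V) (μ : Fin 2 → ℤ) : ℕ :=
  sqMult M 1 μ - min (sqMult M 1 μ) (sqMult M (-1) μ)

/-- Multiplicity of `V(μ)` in `Λ³_low V`. -/
def extLow (M : CGens V) (μ : Fin 2 → ℤ) : ℕ :=
  sqMult M (-1) μ - min (sqMult M 1 μ) (sqMult M (-1) μ)

/-- The two conjectured equalities `[S³_low] = [S_q³]`, `[Λ³_low] = [Λ_q³]` for the quantum module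
`M` with braiding `R` and the classical module `M₀`. -/
def CubesAreLow (q : ℝ) (M : Gens (Module.End ℂ V)) (R : Module.End ℂ (V ⊗[ℂ] V))
    (M₀ : CGens W) : Prop :=
  (∀ μ : Fin 2 → ℤ, 0 ≤ μ → symLow M₀ μ = cubeMult q M (posPart R) μ) ∧
  (∀ μ : Fin 2 → ℤ, 0 ≤ μ → extLow M₀ μ = cubeMult q M (negPart R) μ)

end

end Pool.Agent.H913Z.QCube
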