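import Mathlib
import Pool.Agent.H913Z.QCubeDefs
import Pool.Agent.H913Z.QCubeData

set_option autoImplicit false

open scoped TensorProduct

namespace Pool.Agent.H913Z.QCube

noncomputable section

abbrev V8 : Type := Fin 8 → ℂ

def wt (i : Fin 8) : Fin 2 → ℤ :=
  fun j => ([[1, 1], [-1, 2], [2, -1], [0, 0], [0, 0], [-2, 1], [1, -2], [-1, -1]].getD i.val
    []).getD j.val 0

def tE (j : Fin 2) : Fin 8 → SV (Fin 8) := if j = 0 then tE0 else tE1
def tF (j : Fin 2) : Fin 8 → SV (Fin 8) := if j = 0 then tF0 else tF1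
def tK (j : Fin 2) (i : Fin 8) : SV (Fin 8) := [(i, wt i j, 1)]
def tKi (j : Fin 2) (i : Fin 8) : SV (Fin 8) := [(i, -wt i j, 1)]

abbrev B1 : Module.Basis (Fin 8) ℂ V8 := Pi.basisFun ℂ (Fin 8)
abbrev b1 : Fin 8 → V8 := fun i => B1 i
abbrev b2 : Fin 8 × Fin 8 → V8 ⊗[ℂ] V8 := fun k => b1 k.1 ⊗ₜ[ℂ] b1 k.2
abbrev b3 : (Fin 8 × Fin 8) × Fin 8 → (V8 ⊗[ℂ] V8) ⊗[ℂ] V8 := fun k => b2 k.1 ⊗ₜ[ℂ] b1 k.2
abbrev B2 : Module.Basis (Fin 8 × Fin 8) ℂ (V8 ⊗[ℂ] V8) := B1.tensorProduct B1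

theorem hB2 (k : Fin 8 × Fin 8) : B2 k = b2 k := Module.Basis.tensorProduct_apply' _ _ _

def op (x : ℂ) (T : Fin 8 → SV (Fin 8)) : Module.End ℂ V8 :=
  B1.constr ℂ fun i => ev x b1 (T i)

theorem rep_op (x : ℂ) (T : Fin 8 → SV (Fin 8)) : Rep x b1 b1 (op x T) T :=
  fun i => B1.constr_basis ℂ _ i

def adj (q : ℝ) : Gens (Module.End ℂ V8) where
  E j := op q (tE j)
  F j := op q (tF j)
  K j := op q (tK j)
  Ki j := op q (tKi j)

variable {q : ℝ}

theorem rE (j : Fin 2) : Rep q b1 b1 ((adj q).E j) (tE j) := rep_op _ _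
theorem rF (j : Fin 2) : Rep q b1 b1 ((adj q).F j) (tF j) := rep_op _ _
theorem rK (j : Fin 2) : Rep q b1 b1 ((adj q).K j) (tK j) := rep_op _ _
theorem rKi (j : Fin 2) : Rep q b1 b1 ((adj q).Ki j) (tKi j) := rep_op _ _

theorem dif_ne (h0 : 0 < q) (h1 : q ≠ 1) : (q : ℂ) - (q : ℂ)⁻¹ ≠ 0 := by
  have : q - q⁻¹ ≠ 0 := by
    intro h
    have h2 : q * q = 1 := by field_simp at h; nlinarith
    rcases mul_self_eq_one_iff.mp h2 with h3 | h3
    · exact h1 h3
    · linarith
  exact_mod_cast this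

theorem two_ne (h0 : 0 < q) : (q : ℂ) + (q : ℂ)⁻¹ ≠ 0 := by
  have : q + q⁻¹ ≠ 0 := by positivity
  exact_mod_cast this

theorem isModule (h0 : 0 < q) (h1 : q ≠ 1) : IsModule q (adj q) := by
  have hx : (q : ℂ) ≠ 0 := by exact_mod_cast h0.ne'
  refine ⟨fun i => ?_, fun i => ?_, fun i j => ?_, fun i j => ?_, fun i j => ?_, fun i => ?_,
    fun i j h => ?_, fun i j h => ?_, fun i j h => ?_⟩
  · exact Rep.eq hx B1 (fun _ => rfl) ((rK i).mul hx (rKi i)) Rep.one (by revert i; decide +kernel)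
  · exact Rep.eq hx B1 (fun _ => rfl) ((rKi i).mul hx (rK i)) Rep.one (by revert i; decide +kernel)
  · exact Rep.eq hx B1 (fun _ => rfl) ((rK i).mul hx (rK j)) ((rK j).mul hx (rK i))
      (by revert i j; decide +kernel)
  · exact Rep.eq hx B1 (fun _ => rfl) (((rK i).mul hx (rE j)).mul hx (rKi i))
      ((rE j).smul_zpow hx _) (by revert i j; decide +kernel)
  · exact Rep.eq hx B1 (fun _ => rfl) (((rK i).mul hx (rF j)).mul hx (rKi i))
      ((rF j).smul_zpow hx _) (by revert i j; decide +kernel)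
  · rw [eq_inv_smul_iff₀ (dif_ne h0 h1)]
    exact Rep.eq hx B1 (fun _ => rfl)
      ((((rE i).mul hx (rF i)).sub hx ((rF i).mul hx (rE i))).smul_dif hx)
      ((rK i).sub hx (rKi i)) (by revert i; decide +kernel)
  · exact Rep.eq hx B1 (fun _ => rfl) ((rE i).mul hx (rF j)) ((rF j).mul hx (rE i))
      (by revert i j; decide +kernel)
  · exact Rep.eq_zero B1 (fun _ => rfl) (((((rE i).mul hx (rE i)).mul hx (rE j)).sub hx
      ((((rE i).mul hx (rE j)).mul hx (rE i)).smul_two hx)).add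
      (((rE j).mul hx (rE i)).mul hx (rE i))) (by revert i j; decide +kernel)
  · exact Rep.eq_zero B1 (fun _ => rfl) (((((rF i).mul hx (rF i)).mul hx (rF j)).sub hx
      ((((rF i).mul hx (rF j)).mul hx (rF i)).smul_two hx)).add
      (((rF j).mul hx (rF i)).mul hx (rF i))) (by revert i j; decide +kernel)

theorem b1_mem (i : Fin 8) : b1 i ∈ wtSpace q (adj q) (wt i) := by
  simp only [wtSpace, Submodule.mem_iInf, Module.End.mem_eigenspace_iff]
  intro j
  rw [rK j i]
  simp [tK]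

theorem E0_apply (v : V8) : (adj q).E 0 v =
    ![v 1, 0, ((q : ℂ) + (q : ℂ)⁻¹) * v 3 + v 4, v 5, 0, 0, v 7, 0] := by
  simp only [adj, op, Module.Basis.constr_apply_fintype, Fin.sum_univ_eight]
  ext i
  fin_cases i <;> simp [tE, tE0] <;> ring

theorem E1_apply (v : V8) : (adj q).E 1 v =
    ![v 2, ((q : ℂ) + (q : ℂ)⁻¹) * v 4 + v 3, 0, 0, v 6, v 7, 0, 0] := by
  simp only [adj, op, Module.Basis.constr_apply_fintype, Fin.sum_univ_eight]
  ext i
  fin_cases i <;> simp [tE, tE1] <;> ring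

theorem isSimple (h0 : 0 < q) : IsSimpleHW q (adj q) ![1, 1] := by
  have h2 := two_ne h0
  refine ⟨?_, fun N hN => ?_, b1 0, ?_, B1.ne_zero 0, fun i => ?_⟩
  · rw [eq_top_iff, ← B1.span_eq, Submodule.span_le]
    rintro _ ⟨i, rfl⟩
    exact Submodule.mem_iSup_of_mem (wt i) (b1_mem i)
  · by_cases h : b1 0 ∈ N
    · right
      have g : ∀ (j : Fin 2) (i : Fin 8), b1 i ∈ N → ev q b1 (tF j i) ∈ N :=
        fun j i hi => rF j i ▸ (hN j _ hi).2.1
      have m1 : b1 1 ∈ N := by simpa [tF, tF0] using g 0 0 h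
      have m2 : b1 2 ∈ N := by simpa [tF, tF1] using g 1 0 h
      have m3 : b1 3 ∈ N := by simpa [tF, tF0] using g 0 2 m2
      have m4 : b1 4 ∈ N := by simpa [tF, tF1] using g 1 1 m1
      have m5 : b1 5 ∈ N := by simpa [tF, tF0] using g 0 4 m4
      have m6 : b1 6 ∈ N := by simpa [tF, tF1] using g 1 3 m3
      have m7 : b1 7 ∈ N := by simpa [tF, tF0] using g 0 6 m6
      rw [eq_top_iff, ← B1.span_eq, Submodule.span_le]
      rintro _ ⟨i, rfl⟩
      fin_cases i
      exacts [h, m1, m2, m3, m4, m5, m6, m7]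
    · left
      have key : ∀ w ∈ N, (∀ i, i ≠ 0 → w i = 0) → w 0 = 0 := by
        intro w hw hz
        by_contra hne
        apply h
        have : b1 0 = (w 0)⁻¹ • w := by
          ext i
          by_cases hi : i = 0
          · subst hi; simp [hne]
          · simp [hz i hi, hi]
        rw [this]
        exact N.smul_mem _ hw
      have e0 : ∀ v ∈ N, (adj q).E 0 v ∈ N := fun v hv => (hN 0 v hv).1
      have e1 : ∀ v ∈ N, (adj q).E 1 v ∈ N := fun v hv => (hN 1 v hv).1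
      rw [eq_bot_iff]
      intro v hv
      have z7 : v 7 = 0 := by
        have := key _ (e0 _ (e1 _ (e1 _ (e0 _ hv)))) (by
          intro i hi; fin_cases i <;> simp [E0_apply, E1_apply] at hi ⊢)
        simpa [E0_apply, E1_apply, h2] using this
      have z5 : v 5 = 0 := by
        have := key _ (e1 _ (e0 _ (e0 _ hv))) (by
          intro i hi; fin_cases i <;> simp [E0_apply, E1_apply] at hi ⊢)
        simpa [E0_apply, E1_apply, h2] using this
      have z6 : v 6 = 0 := by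
        have := key _ (e0 _ (e1 _ (e1 _ hv))) (by
          intro i hi; fin_cases i <;> simp [E0_apply, E1_apply] at hi ⊢)
        simpa [E0_apply, E1_apply, h2] using this
      have a3 : ((q : ℂ) + (q : ℂ)⁻¹) * v 3 + v 4 = 0 := by
        have := key _ (e1 _ (e0 _ hv)) (by
          intro i hi; fin_cases i <;> simp [E0_apply, E1_apply, z5, z6, z7] at hi ⊢)
        simpa [E0_apply, E1_apply] using this
      have a4 : ((q : ℂ) + (q : ℂ)⁻¹) * v 4 + v 3 = 0 := by
        have := key _ (e0 _ (e1 _ hv)) (by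
          intro i hi; fin_cases i <;> simp [E0_apply, E1_apply, z5, z6, z7] at hi ⊢)
        simpa [E0_apply, E1_apply] using this
      have h3 : ((q : ℂ) + (q : ℂ)⁻¹) ^ 2 - 1 ≠ 0 := by
        have : (q + q⁻¹) ^ 2 - 1 ≠ 0 := by
          have e : (q + q⁻¹) ^ 2 - 1 = q ^ 2 + 1 + q⁻¹ ^ 2 := by field_simp; ring
          rw [e]; positivity
        exact_mod_cast this
      have z3 : v 3 = 0 := by
        refine (mul_eq_zero.mp ?_).resolve_left h3
        linear_combination ((q : ℂ) + (q : ℂ)⁻¹) * a3 - a4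
      have z4 : v 4 = 0 := by simpa [z3] using a3
      have z1 : v 1 = 0 := by
        have := key _ (e0 _ hv) (by
          intro i hi; fin_cases i <;> simp [E0_apply, z3, z4, z5, z7] at hi ⊢)
        simpa [E0_apply] using this
      have z2 : v 2 = 0 := by
        have := key _ (e1 _ hv) (by
          intro i hi; fin_cases i <;> simp [E1_apply, z3, z4, z6, z7] at hi ⊢)
        simpa [E1_apply] using this
      have z0 : v 0 = 0 := key _ hv (by
        intro i hi; fin_cases i <;> simp [z1, z2, z3, z4, z5, z6, z7] at hi ⊢)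
      rw [Submodule.mem_bot]
      ext i
      fin_cases i <;> simp [z0, z1, z2, z3, z4, z5, z6, z7]
  · have := b1_mem (q := q) 0
    have e : wt 0 = ![1, 1] := by decide
    rwa [e] at this
  · rw [rE i 0]
    fin_cases i <;> simp [tE, tE0, tE1]

theorem coord_eq_zero (h0 : 0 < q) (h1 : q ≠ 1) {μ : Fin 2 → ℤ} {v : V8}
    (hv : v ∈ wtSpace q (adj q) μ) (i : Fin 8) (hi : wt i ≠ μ) : v i = 0 := by
  simp only [wtSpace, Submodule.mem_iInf, Module.End.mem_eigenspace_iff] at hv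
  by_contra hne
  apply hi
  funext j
  have h := congrFun (hv j) i
  have e : (adj q).K j v i = (q : ℂ) ^ wt i j * v i := by
    simp only [adj, op, Module.Basis.constr_apply_fintype, tK]
    simp [Pi.single_apply, mul_comm]
  rw [e, Pi.smul_apply, smul_eq_mul] at h
  have h' := mul_right_cancel₀ hne h
  have h'' : q ^ wt i j = q ^ μ j := by exact_mod_cast h'
  exact zpow_right_injective₀ h0 h1 h''

theorem exists_cartan (h0 : 0 < q) (h1 : q ≠ 1) : ∃ C, IsCartanFactor q (adj q) C := by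
  refine ⟨B2.constr ℂ fun k => ((q ^ form (wt k.1) (wt k.2) : ℝ) : ℂ) • b2 k,
    fun μ ν v hv w hw => ?_⟩
  rw [← B1.sum_repr v, ← B1.sum_repr w]
  simp only [TensorProduct.sum_tmul, TensorProduct.tmul_sum, map_sum, Finset.smul_sum,
    TensorProduct.smul_tmul_smul, map_smul]
  refine Finset.sum_congr rfl fun j _ => Finset.sum_congr rfl fun i _ => ?_
  have e : B1 i ⊗ₜ[ℂ] B1 j = B2 (i, j) := (hB2 (i, j)).symm
  rw [e, Module.Basis.constr_basis, ← hB2]
  by_cases hi : wt i = μ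
  · by_cases hj : wt j = ν
    · rw [hi, hj, smul_comm]
    · simp [coord_eq_zero h0 h1 hw j hj]
  · simp [coord_eq_zero h0 h1 hv i hi]

def ip (k : Fin 8 × Fin 8) : ℤ :=
  (2 * wt k.1 0 * wt k.2 0 + wt k.1 0 * wt k.2 1 + wt k.1 1 * wt k.2 0 +
    2 * wt k.1 1 * wt k.2 1) / 3

theorem rep_cartan {C : Module.End ℂ (V8 ⊗[ℂ] V8)} (hC : IsCartanFactor q (adj q) C) :
    Rep q b2 b2 C fun k => [(k, ip k, 1)] := by
  intro k
  rw [hC _ _ _ (b1_mem k.1) _ (b1_mem k.2)]
  have h3 : 2 * wt k.1 0 * wt k.2 0 + wt k.1 0 * wt k.2 1 + wt k.1 1 * wt k.2 0 +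
    2 * wt k.1 1 * wt k.2 1 = 3 * ip k := by revert k; decide +kernel
  have : form (wt k.1) (wt k.2) = (ip k : ℝ) := by
    rw [form, div_eq_iff (by norm_num), mul_comm (ip k : ℝ)]
    exact_mod_cast h3
  rw [this, Real.rpow_intCast]
  simp [b2]

theorem qexp_eq (h0 : 0 < q) (h1 : q ≠ 1) (A B D : Module.End ℂ V8) (h3 : A * A * A = 0)
    (h2 : A * A = ((q : ℂ) + (q : ℂ)⁻¹) • D) :
    qexp q A B = 1 + ((q : ℂ) - (q : ℂ)⁻¹) • TensorProduct.map A B +
      (q : ℂ) • ((q : ℂ) - (q : ℂ)⁻¹) • ((q : ℂ) - (q : ℂ)⁻¹) • TensorProduct.map D (B * B) := by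
  have hx : (q : ℂ) ≠ 0 := by exact_mod_cast h0.ne'
  have hd := dif_ne h0 h1
  have ht := two_ne h0
  have h3' : A ^ 3 = 0 := by rw [pow_three', h3]
  have q1 : qint q 1 = 1 := by simp [qint, hd]
  have q2 : qint q 2 = (q : ℂ) + (q : ℂ)⁻¹ := by
    rw [qint, div_eq_iff hd]; ring
  rw [qexp, ← Finset.sum_subset (s₁ := Finset.range 3) (by simp)]
  · simp only [Finset.sum_range_succ, Finset.prod_range_succ, Finset.range_zero, Finset.sum_empty,
      Finset.prod_empty, zero_add, q1, pow_zero, pow_one, otimes, TensorProduct.map_one]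
    norm_num
    rw [q2, sq A, h2, sq B, TensorProduct.map_smul_left, smul_smul, smul_smul, smul_smul]
    congr 2
    rw [div_mul_cancel₀ _ ht]
    ring
  · intro n _ hn
    have : A ^ n = 0 := pow_eq_zero_of_le (by simpa using hn) h3'
    simp [this, otimes]

end

end Pool.Agent.H913Z.QCube
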