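import Mathlib
import Pool.Agent.H913Z.QCubeMod

set_option autoImplicit false

open scoped TensorProduct

namespace Pool.Agent.H913Z.QCube

noncomputable section

variable {q : ℝ}

theorem rep_qexp (h0 : 0 < q) (h1 : q ≠ 1) {A B : Module.End ℂ V8} {TA TB : Fin 8 → SV (Fin 8)}
    (TD : Fin 8 → SV (Fin 8)) (hA : Rep q b1 b1 A TA) (hB : Rep q b1 b1 B TB)
    (d3 : ∀ i, (nrm (nrm (app (fun i => nrm (app TA (TA i))) (TA i)))).isEmpty = true)
    (d2 : ∀ i, (nrm (nrm (app TA (TA i)) ++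
      smulT 0 (-1) (smulT 1 1 (TD i) ++ smulT (-1) 1 (TD i)))).isEmpty = true) :
    Rep q b2 b2 (qexp q A B) fun k => nrm (([(k, 0, 1)] ++ (smulT 1 1 (tens (TA k.1) (TB k.2)) ++
      smulT (-1) (-1) (tens (TA k.1) (TB k.2)))) ++
      (smulT 3 1 (tens (TD k.1) (nrm (app TB (TB k.2)))) ++
        (smulT 1 (-2) (tens (TD k.1) (nrm (app TB (TB k.2)))) ++
          smulT (-1) 1 (tens (TD k.1) (nrm (app TB (TB k.2))))))) := by
  have hx : (q : ℂ) ≠ 0 := by exact_mod_cast h0.ne'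
  have h3 : A * A * A = 0 := Rep.eq_zero B1 (fun _ => rfl) ((hA.mul hx hA).mul hx hA) d3
  have h2 : A * A = ((q : ℂ) + (q : ℂ)⁻¹) • op q TD :=
    Rep.eq hx B1 (fun _ => rfl) (hA.mul hx hA) ((rep_op q TD).smul_two hx) d2
  have hD := (rep_op (q : ℂ) TD).map hx (hB.mul hx hB)
  have := (Rep.one.add ((hA.map hx hB).smul_dif hx)).add
    ((hD.smul hx 3 1).add ((hD.smul hx 1 (-2)).add (hD.smul hx (-1) 1)))
  intro k
  rw [ev_nrm]
  refine Eq.trans ?_ (this k)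
  rw [qexp_eq h0 h1 A B _ h3 h2, smul_smul, smul_smul, ← add_smul, ← add_smul]
  congr 3
  push_cast
  simp only [zpow_neg, zpow_ofNat]
  field_simp
  ring

theorem rep_comm : Rep q b2 b2 (flipOp V8)
    fun k => [((k.2, k.1), 0, 1)] := fun k => by simp [b2, flipOp]

theorem rep_braiding (h0 : 0 < q) (h1 : q ≠ 1) {C : Module.End ℂ (V8 ⊗[ℂ] V8)}
    (hC : IsCartanFactor q (adj q) C) : Rep q b2 b2 (braiding q (adj q) C) tR := by
  have hx : (q : ℂ) ≠ 0 := by exact_mod_cast h0.ne'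
  have e0 := rep_qexp h0 h1 tD0 (rE 0) (rF 0) (by decide +kernel) (by decide +kernel)
  have e1 := rep_qexp h0 h1 tD1 (rE 1) (rF 1) (by decide +kernel) (by decide +kernel)
  have e2 := rep_qexp h0 h1 tD2
    (((rE 0).mul hx (rE 1)).sub hx (((rE 1).mul hx (rE 0)).smul_inv hx))
    (((rF 1).mul hx (rF 0)).sub hx (((rF 0).mul hx (rF 1)).smul_x hx))
    (by decide +kernel) (by decide +kernel)
  exact ((((rep_comm.mul hx (rep_cartan hC)).mul hx e0).mul hx e2).mul hx e1).retab hx tR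
    (by decide +kernel)

def tE2 (j : Fin 2) (k : Fin 8 × Fin 8) : SV (Fin 8 × Fin 8) :=
  tens (tE j k.1) (tK j k.2) ++ tens [(k.1, 0, 1)] (tE j k.2)
def tF2 (j : Fin 2) (k : Fin 8 × Fin 8) : SV (Fin 8 × Fin 8) :=
  tens (tF j k.1) [(k.2, 0, 1)] ++ tens (tKi j k.1) (tF j k.2)
def tK2 (j : Fin 2) (k : Fin 8 × Fin 8) : SV (Fin 8 × Fin 8) := tens (tK j k.1) (tK j k.2)

theorem rE2 (hx : (q : ℂ) ≠ 0) (j : Fin 2) :
    Rep q b2 b2 ((tensor (adj q) (adj q)).E j) (tE2 j) :=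
  ((rE j).map hx (rK j)).add (Rep.one.map hx (rE j))
theorem rF2 (hx : (q : ℂ) ≠ 0) (j : Fin 2) :
    Rep q b2 b2 ((tensor (adj q) (adj q)).F j) (tF2 j) :=
  ((rF j).map hx Rep.one).add ((rKi j).map hx (rF j))
theorem rK2 (hx : (q : ℂ) ≠ 0) (j : Fin 2) :
    Rep q b2 b2 ((tensor (adj q) (adj q)).K j) (tK2 j) := (rK j).map hx (rK j)

theorem braiding_commute (h0 : 0 < q) (h1 : q ≠ 1) {C : Module.End ℂ (V8 ⊗[ℂ] V8)}
    (hC : IsCartanFactor q (adj q) C) (j : Fin 2) :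
    Commute (braiding q (adj q) C) ((tensor (adj q) (adj q)).E j) ∧
    Commute (braiding q (adj q) C) ((tensor (adj q) (adj q)).F j) ∧
    Commute (braiding q (adj q) C) ((tensor (adj q) (adj q)).K j) := by
  have hx : (q : ℂ) ≠ 0 := by exact_mod_cast h0.ne'
  have hR := rep_braiding h0 h1 hC
  refine ⟨?_, ?_, ?_⟩
  · exact Rep.eq hx B2 hB2 (hR.mul hx (rE2 hx j)) ((rE2 hx j).mul hx hR)
      (by revert j; decide +kernel)
  · exact Rep.eq hx B2 hB2 (hR.mul hx (rF2 hx j)) ((rF2 hx j).mul hx hR)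
      (by revert j; decide +kernel)
  · exact Rep.eq hx B2 hB2 (hR.mul hx (rK2 hx j)) ((rK2 hx j).mul hx hR)
      (by revert j; decide +kernel)

def sliceL (t : SV ((Fin 8 × Fin 8) × Fin 8)) (k : Fin 8) : SV (Fin 8 × Fin 8) :=
  t.filterMap fun s => if s.1.2 = k then some (s.1.1, s.2) else none

def sliceR (t : SV ((Fin 8 × Fin 8) × Fin 8)) (k : Fin 8) : SV (Fin 8 × Fin 8) :=
  t.filterMap fun s => if s.1.1.1 = k then some ((s.1.1.2, s.1.2), s.2) else none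

def reassoc (l : SV (Fin 8 × (Fin 8 × Fin 8))) : SV ((Fin 8 × Fin 8) × Fin 8) :=
  app (fun k => [(((k.1, k.2.1), k.2.2), 0, 1)]) l

theorem mem_cube (hx : (q : ℂ) ≠ 0) (N : Submodule ℂ (V8 ⊗[ℂ] V8))
    (t : SV ((Fin 8 × Fin 8) × Fin 8)) (hL : ∀ k, ev q b2 (sliceL t k) ∈ N)
    (hR : ∀ k, ev q b2 (sliceR t k) ∈ N)
    (dL : (nrm (t ++ smulT 0 (-1)
      ((List.finRange 8).flatMap fun k => tens (sliceL t k) [(k, 0, 1)]))).isEmpty = true)
    (dR : (nrm (t ++ smulT 0 (-1) ((List.finRange 8).flatMap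
      fun k => reassoc (tens [(k, 0, 1)] (sliceR t k))))).isEmpty = true) :
    ev q b3 t ∈ cube N := by
  refine Submodule.mem_inf.mpr ⟨?_, ?_⟩
  · rw [ev_eq hx dL]
    refine ev_flatMap_mem (tensLeft N) _ _ fun k => ?_
    rw [ev_tens hx]
    exact Submodule.subset_span ⟨_, hL k, _, rfl⟩
  · rw [ev_eq hx dR]
    refine ev_flatMap_mem (tensRight N) _ _ fun k => ?_
    have hA : Rep q (fun k : Fin 8 × (Fin 8 × Fin 8) => b1 k.1 ⊗ₜ[ℂ] b2 k.2) b3
        (TensorProduct.assoc ℂ V8 V8 V8).symm.toLinearMap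
        fun k => [(((k.1, k.2.1), k.2.2), 0, 1)] := fun k => by simp [b2, b3]
    rw [reassoc, ← hA.apply hx, ev_tens hx]
    exact Submodule.subset_span ⟨_, hR k, _, rfl⟩

theorem eigen (hx : (q : ℂ) ≠ 0) {R : Module.End ℂ (V8 ⊗[ℂ] V8)} (hR : Rep q b2 b2 R tR) (c : ℤ)
    (l : SV (Fin 8 × Fin 8))
    (d : (nrm (app tR l ++ smulT 0 (-1) (smulT (-3) c l))).isEmpty = true) :
    ev q b2 l ∈ R.eigenspace (((c * q ^ (-3 : ℤ) : ℝ) : ℂ)) := by
  rw [Module.End.mem_eigenspace_iff, hR.apply hx, ev_eq hx d, ev_smulT hx]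
  push_cast
  rfl

def tE3 (j : Fin 2) (k : (Fin 8 × Fin 8) × Fin 8) : SV ((Fin 8 × Fin 8) × Fin 8) :=
  tens (tE2 j k.1) (tK j k.2) ++ tens [(k.1, 0, 1)] (tE j k.2)
def tK3 (j : Fin 2) (k : (Fin 8 × Fin 8) × Fin 8) : SV ((Fin 8 × Fin 8) × Fin 8) :=
  tens (tK2 j k.1) (tK j k.2)

def coordF : (V8 ⊗[ℂ] V8) ⊗[ℂ] V8 →ₗ[ℂ] ℂ := (B2.tensorProduct B1).coord ((0, 3), 7)

theorem rep_coord : Rep q b3 (fun _ : Unit => (1 : ℂ)) coordF
    fun k => if k = ((0, 3), 7) then [((), 0, 1)] else [] := by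
  intro k
  have : b3 k = (B2.tensorProduct B1) k := by
    rw [Module.Basis.tensorProduct_apply', hB2]
  rw [this, coordF, Module.Basis.coord_apply, Module.Basis.repr_self, Finsupp.single_apply]
  by_cases h : k = ((0, 3), 7) <;> simp [h]

theorem mult_pos' {V : Type} [AddCommGroup V] [Module ℂ V] [FiniteDimensional ℂ V]
    (M : Gens (Module.End ℂ V))
    (N : Submodule ℂ V) (μ : Fin 2 → ℤ) (v : V) (hv : v ∈ N) (hne : v ≠ 0)
    (hK : ∀ j, M.K j v = (q : ℂ) ^ μ j • v) (hE : ∀ j, M.E j v = 0) : 0 < mult q M N μ := by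
  rw [mult, Module.finrank_pos_iff_exists_ne_zero]
  refine ⟨⟨v, ⟨hv, ?_⟩, ?_⟩, fun h => hne (congrArg Subtype.val h)⟩
  · simpa only [wtSpace, SetLike.mem_coe, Submodule.mem_iInf, Module.End.mem_eigenspace_iff]
      using hK
  · simpa only [SetLike.mem_coe, Submodule.mem_iInf, LinearMap.mem_ker] using hE

theorem mult_pos (hx : (q : ℂ) ≠ 0) (N : Submodule ℂ ((V8 ⊗[ℂ] V8) ⊗[ℂ] V8))
    (t : SV ((Fin 8 × Fin 8) × Fin 8)) (ht : ev q b3 t ∈ N) (hne : ev q b3 t ≠ 0)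
    (dE : ∀ j, (nrm (app (tE3 j) t)).isEmpty = true)
    (dK : ∀ j, (nrm (app (tK3 j) t ++ smulT 0 (-1) t)).isEmpty = true) :
    0 < mult q (tensor (tensor (adj q) (adj q)) (adj q)) N 0 := by
  refine mult_pos' _ _ _ _ ht hne ?_ ?_
  · intro j
    have h : Rep q b3 b3 ((tensor (tensor (adj q) (adj q)) (adj q)).K j) (tK3 j) :=
      (rK2 hx j).map hx (rK j)
    rw [h.apply hx, ev_eq hx (dK j)]
    simp
  · intro j
    have h : Rep q b3 b3 ((tensor (tensor (adj q) (adj q)) (adj q)).E j) (tE3 j) :=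
      ((rE2 hx j).map hx (rK j)).add (Rep.one.map hx (rE j))
    rw [h.apply hx, ev_eq_zero (dE j)]

theorem tP_ne (h0 : 0 < q) : ev q b3 tP ≠ 0 := by
  have hx : (q : ℂ) ≠ 0 := by exact_mod_cast h0.ne'
  intro h
  have h1 := rep_coord.apply hx tP
  rw [h, map_zero, ev_eq hx (m := [((), 15, -1), ((), 16, -1), ((), 17, -1)])
    (by decide +kernel)] at h1
  simp only [ev_cons, ev_nil, smul_eq_mul, zpow_ofNat] at h1
  have h2 : (((q ^ 15 + q ^ 16 + q ^ 17 : ℝ)) : ℂ) = 0 := by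
    push_cast at h1 ⊢
    linear_combination h1
  have h3 : 0 < q ^ 15 + q ^ 16 + q ^ 17 := by positivity
  exact h3.ne' (by exact_mod_cast h2)

theorem h4 (y : ℝ) : 0 < 1 - y + y ^ 2 := by nlinarith [sq_nonneg (y - 1 / 2)]

theorem tM_ne (h0 : 0 < q) : ev q b3 tM ≠ 0 := by
  have hx : (q : ℂ) ≠ 0 := by exact_mod_cast h0.ne'
  intro h
  have h1 := rep_coord.apply hx tM
  rw [h, map_zero, ev_eq hx (m := [((), 15, 1), ((), 16, -1), ((), 17, 1)])
    (by decide +kernel)] at h1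
  simp only [ev_cons, ev_nil, smul_eq_mul, zpow_ofNat] at h1
  have h2 : (((q ^ 15 * (1 - q + q ^ 2) : ℝ)) : ℂ) = 0 := by
    push_cast at h1 ⊢
    linear_combination -h1
  have h3 : 0 < q ^ 15 * (1 - q + q ^ 2) := mul_pos (pow_pos h0 15) (h4 q)
  exact h3.ne' (by exact_mod_cast h2)

theorem sym_pos (h0 : 0 < q) (h1 : q ≠ 1) {C : Module.End ℂ (V8 ⊗[ℂ] V8)}
    (hC : IsCartanFactor q (adj q) C) :
    0 < mult q (tensor (tensor (adj q) (adj q)) (adj q))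
      (cube (posPart (braiding q (adj q) C))) 0 := by
  have hx : (q : ℂ) ≠ 0 := by exact_mod_cast h0.ne'
  have hR := rep_braiding h0 h1 hC
  have hle : (braiding q (adj q) C).eigenspace ((((1 : ℤ) * q ^ (-3 : ℤ) : ℝ) : ℂ)) ≤
      posPart (braiding q (adj q) C) :=
    le_iSup₂_of_le (f := fun (c : ℝ) (_ : 0 < c) => (braiding q (adj q) C).eigenspace (c : ℂ))
      _ (by simp; positivity) le_rfl
  refine mult_pos hx _ tP (mem_cube hx _ _ (fun k => hle (eigen hx hR 1 _ ?_))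
    (fun k => hle (eigen hx hR 1 _ ?_)) (by decide +kernel) (by decide +kernel)) (tP_ne h0)
    (by decide +kernel) (by decide +kernel)
  · revert k; decide +kernel
  · revert k; decide +kernel

theorem ext_pos (h0 : 0 < q) (h1 : q ≠ 1) {C : Module.End ℂ (V8 ⊗[ℂ] V8)}
    (hC : IsCartanFactor q (adj q) C) :
    0 < mult q (tensor (tensor (adj q) (adj q)) (adj q))
      (cube (negPart (braiding q (adj q) C))) 0 := by
  have hx : (q : ℂ) ≠ 0 := by exact_mod_cast h0.ne'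
  have hR := rep_braiding h0 h1 hC
  have hle : (braiding q (adj q) C).eigenspace ((((-1 : ℤ) * q ^ (-3 : ℤ) : ℝ) : ℂ)) ≤
      negPart (braiding q (adj q) C) :=
    le_iSup₂_of_le (f := fun (c : ℝ) (_ : c < 0) => (braiding q (adj q) C).eigenspace (c : ℂ))
      _ (by simp; positivity) le_rfl
  refine mult_pos hx _ tM (mem_cube hx _ _ (fun k => hle (eigen hx hR (-1) _ ?_))
    (fun k => hle (eigen hx hR (-1) _ ?_)) (by decide +kernel) (by decide +kernel)) (tM_ne h0)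
    (by decide +kernel) (by decide +kernel)
  · revert k; decide +kernel
  · revert k; decide +kernel

end

end Pool.Agent.H913Z.QCube
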